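import Mathlib

namespace Pool.Agent.Lib.MP_9a669f_co

/-- The closed wedge of angle `γ` with apex at the origin starting at direction `φ₀`. -/
def wedge (φ₀ γ : ℝ) : Set (ℝ × ℝ) :=
  {v | ∃ r φ : ℝ, 0 ≤ r ∧ φ₀ ≤ φ ∧ φ ≤ φ₀ + γ ∧ v = (r * Real.cos φ, r * Real.sin φ)}

/-- A geometric graph on `P` is angle-monotone of width `γ`: every two points are joined by a
path all of whose edge vectors lie in one wedge of angle `γ`. -/
def AngleMonotone (γ : ℝ) (P : Finset (ℝ × ℝ)) (G : SimpleGraph P) : Prop :=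
  ∀ s t : P, ∃ p : G.Walk s t, p.IsPath ∧
    ∃ φ₀ : ℝ, ∀ d ∈ p.darts, (d.snd : ℝ × ℝ) - (d.fst : ℝ × ℝ) ∈ wedge φ₀ γ

end Pool.Agent.Lib.MP_9a669f_co
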