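import Mathlib
import Pool.Agent.Lib.MP_9a669f_co.Defs

/-! Plane algebra, monotone connections and edge budgets for the convex position theorem. -/

namespace Pool.Agent.Lib.MP_9a669f_co.Cv

open Relation

abbrev Pt := ℝ × ℝ

def dot (u v : Pt) : ℝ := u.1 * v.1 + u.2 * v.2

def crs (e : ℝ) (u v : Pt) : ℝ := e * (u.1 * v.2 - u.2 * v.1)

def ori (e : ℝ) (p q r : Pt) : ℝ := crs e (q - p) (r - p)

theorem ori_cyc (e : ℝ) (p q r : Pt) : ori e p q r = ori e q r p := by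
  simp only [ori, crs, Prod.fst_sub, Prod.snd_sub]; ring

theorem ori_neg (e : ℝ) (p q r : Pt) : ori (-e) p q r = ori e r q p := by
  simp only [ori, crs, Prod.fst_sub, Prod.snd_sub]; ring

theorem ori_self (e : ℝ) (p q : Pt) : ori e p q q = 0 := by
  simp only [ori, crs, Prod.fst_sub, Prod.snd_sub]; ring

theorem ne_zero_of_crs {e : ℝ} {u v : Pt} (h : 0 < crs e u v) : u ≠ 0 := by
  rintro rfl; simp [crs] at h

theorem ne_zero_of_crs' {e : ℝ} {u v : Pt} (h : 0 < crs e u v) : v ≠ 0 := by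
  rintro rfl; simp [crs] at h

theorem dot_self_pos {u : Pt} (h : u ≠ 0) : 0 < dot u u := by
  have h0 : 0 ≤ dot u u := add_nonneg (mul_self_nonneg _) (mul_self_nonneg _)
  refine lt_of_le_of_ne h0 fun h1 => h ?_
  have h2 : u.1 * u.1 + u.2 * u.2 = 0 := h1.symm
  have a1 : u.1 = 0 := by nlinarith [mul_self_nonneg u.1, mul_self_nonneg u.2]
  have a2 : u.2 = 0 := by nlinarith [mul_self_nonneg u.1, mul_self_nonneg u.2]
  exact Prod.ext a1 a2

/-- Transitivity of the turning direction inside a quadrant. -/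
theorem crs_trans {e : ℝ} {u v w : Pt} (hv : v ≠ 0) (h1 : 0 ≤ crs e u v) (h2 : 0 ≤ crs e v w)
    (h3 : 0 ≤ dot v w) (h4 : 0 ≤ dot u v) : 0 ≤ crs e u w := by
  have key : crs e u w * dot v v = crs e u v * dot v w + crs e v w * dot u v := by
    simp only [crs, dot]; ring
  have h5 : 0 ≤ crs e u w * dot v v := by rw [key]; positivity
  exact nonneg_of_mul_nonneg_left h5 (dot_self_pos hv)

/-- A wider angle than an obtuse one is obtuse. -/
theorem cap {e : ℝ} {A X Y B : Pt} (h1 : 0 ≤ crs e A X) (h2 : 0 < crs e X Y) (h3 : 0 ≤ crs e Y B)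
    (h4 : 0 ≤ crs e A B) (h5 : 0 < crs e A Y) (h6 : dot X Y < 0) : dot A B ≤ 0 := by
  have k1 : crs e X Y * dot A Y = crs e A Y * dot X Y - crs e A X * dot Y Y := by
    simp only [crs, dot]; ring
  have k2 : crs e A Y * dot A B = crs e A B * dot A Y - crs e Y B * dot A A := by
    simp only [crs, dot]; ring
  have yy : 0 ≤ dot Y Y := add_nonneg (mul_self_nonneg _) (mul_self_nonneg _)
  have aa : 0 ≤ dot A A := add_nonneg (mul_self_nonneg _) (mul_self_nonneg _)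
  have a1 : dot A Y ≤ 0 := by
    by_contra hc
    have := mul_pos h2 (not_le.1 hc)
    nlinarith [mul_nonneg h1 yy, mul_pos h5 (neg_pos.2 h6)]
  by_contra hc
  have := mul_pos h5 (not_le.1 hc)
  nlinarith [mul_nonneg h3 aa, mul_nonneg h4 (neg_nonneg.2 a1)]

theorem four_real {p1 q1 p2 q2 p3 q3 p4 q4 : ℝ} (a1 : q1 < 0) (a2 : 0 < q2) (a3 : 0 < q3)
    (a4 : q4 < 0) (b1 : 0 < p1 * q2 - q1 * p2) (b2 : 0 ≤ p1 * p2 + q1 * q2)
    (b3 : 0 < p4 * q3 - q4 * p3) (b4 : 0 ≤ p3 * p4 + q3 * q4) :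
    (0 ≤ p1 * p3 + q1 * q3 ∧ 0 ≤ p1 * q3 - q1 * p3) ∨
      (0 ≤ p4 * p2 + q4 * q2 ∧ 0 ≤ p4 * q2 - q4 * p2) := by
  have c1 : 0 < p1 * p2 := by nlinarith [mul_pos (neg_pos.2 a1) a2]
  have c2 : 0 < p3 * p4 := by nlinarith [mul_pos (neg_pos.2 a4) a3]
  have d1 : 0 < p1 := by
    by_contra hc
    have hc' := not_lt.1 hc
    have : p2 < 0 := by
      by_contra h2
      nlinarith [mul_nonneg (neg_nonneg.2 hc') (not_lt.1 h2)]
    nlinarith [mul_nonneg (neg_nonneg.2 hc') a2.le, mul_pos (neg_pos.2 a1) (neg_pos.2 this)]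
  have d2 : 0 < p2 := (pos_iff_pos_of_mul_pos c1).1 d1
  have d4 : 0 < p4 := by
    by_contra hc
    have hc' := not_lt.1 hc
    have : p3 < 0 := by
      by_contra h2
      nlinarith [mul_nonneg (neg_nonneg.2 hc') (not_lt.1 h2)]
    nlinarith [mul_nonneg (neg_nonneg.2 hc') a3.le, mul_pos (neg_pos.2 a4) (neg_pos.2 this)]
  have d3 : 0 < p3 := (pos_iff_pos_of_mul_pos c2).2 d4
  by_cases h : 0 ≤ p1 * p3 + q1 * q3
  · exact Or.inl ⟨h, by nlinarith [mul_pos d1 a3, mul_pos (neg_pos.2 a1) d3]⟩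
  refine Or.inr ⟨?_, by nlinarith [mul_pos d4 a2, mul_pos (neg_pos.2 a4) d2]⟩
  by_contra h'
  have e1 : p1 * p3 < -q1 * q3 := by linarith [not_le.1 h]
  have e2 : p4 * p2 < -q4 * q2 := by linarith [not_le.1 h']
  have e3 : -q1 * q2 ≤ p1 * p2 := by linarith
  have e4 : -q4 * q3 ≤ p3 * p4 := by linarith
  have f1 := mul_lt_mul'' e1 e2 (mul_pos d1 d3).le (mul_pos d4 d2).le
  have f2 := mul_le_mul e3 e4 (mul_pos (neg_pos.2 a4) a3).le c1.le
  nlinarith

/-- Two rungs seen under at most a right angle from the two ends: one of the two sides turns by at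
most a right angle. -/
theorem four_vec {e : ℝ} (he : e * e = 1) {g d1 e1 d2 e2 : Pt} (a1 : 0 < crs e d1 g)
    (a2 : 0 < crs e g e1) (a3 : 0 < crs e g d2) (a4 : 0 < crs e e2 g) (b1 : 0 < crs e d1 e1)
    (b2 : 0 ≤ dot d1 e1) (b3 : 0 < crs e e2 d2) (b4 : 0 ≤ dot d2 e2) :
    (0 ≤ dot d1 d2 ∧ 0 ≤ crs e d1 d2) ∨ (0 ≤ dot e2 e1 ∧ 0 ≤ crs e e2 e1) := by
  have hg := dot_self_pos (ne_zero_of_crs a2)
  have kd : ∀ u v : Pt, dot g u * dot g v + crs e g u * crs e g v = dot u v * dot g g := by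
    intro u v
    simp only [crs, dot]
    linear_combination ((g.1 * u.2 - g.2 * u.1) * (g.1 * v.2 - g.2 * v.1)) * he
  have kc : ∀ u v : Pt, dot g u * crs e g v - crs e g u * dot g v = crs e u v * dot g g := by
    intro u v
    simp only [crs, dot]; ring
  have an : ∀ u : Pt, crs e g u = -crs e u g := by
    intro u
    simp only [crs]; ring
  have := four_real (p1 := dot g d1) (q1 := crs e g d1) (p2 := dot g e1) (q2 := crs e g e1)
    (p3 := dot g d2) (q3 := crs e g d2) (p4 := dot g e2) (q4 := crs e g e2)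
    (by rw [an]; linarith) a2 a3 (by rw [an]; linarith) (by rw [kc]; positivity)
    (by rw [kd]; positivity) (by rw [kc]; positivity) (by rw [kd]; positivity)
  simp only [kd, kc] at this
  rcases this with ⟨h1, h2⟩ | ⟨h1, h2⟩
  · exact Or.inl ⟨nonneg_of_mul_nonneg_left h1 hg, nonneg_of_mul_nonneg_left h2 hg⟩
  · exact Or.inr ⟨nonneg_of_mul_nonneg_left h1 hg, nonneg_of_mul_nonneg_left h2 hg⟩

/-- The power of a point with respect to a circle given by its coefficients. -/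
def pw (c : ℝ × ℝ × ℝ) (p : Pt) : ℝ := p.1 ^ 2 + p.2 ^ 2 + c.1 * p.1 + c.2.1 * p.2 + c.2.2

theorem quad_id (e : ℝ) (c : ℝ × ℝ × ℝ) (s t p0 p1 p2 p3 : Pt) :
    ori e p1 p2 p3 * (dot (s - p0) (t - p0) - pw c p0) +
      ori e p0 p1 p3 * (dot (s - p2) (t - p2) - pw c p2) =
    ori e p0 p2 p3 * (dot (s - p1) (t - p1) - pw c p1) +
      ori e p0 p1 p2 * (dot (s - p3) (t - p3) - pw c p3) := by
  simp only [ori, crs, dot, pw, Prod.fst_sub, Prod.snd_sub]; ring

theorem dot_l (s t : Pt) : dot (s - s) (t - s) = 0 := by simp [dot]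

theorem dot_r (s t : Pt) : dot (s - t) (t - t) = 0 := by simp [dot]

/-- In a convex quadrilateral whose diagonal `p1 p3` lies on a circle with `p0`, `p2` outside, one
end of the diagonal is in the disc with diameter `p0 p2`. -/
theorem lemQ {e : ℝ} {c : ℝ × ℝ × ℝ} {p0 p1 p2 p3 : Pt} (o0 : 0 < ori e p1 p2 p3)
    (o1 : 0 < ori e p0 p2 p3) (o2 : 0 < ori e p0 p1 p3) (o3 : 0 < ori e p0 p1 p2)
    (h0 : 0 ≤ pw c p0) (h1 : pw c p1 = 0) (h2 : 0 ≤ pw c p2) (h3 : pw c p3 = 0) :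
    dot (p0 - p1) (p2 - p1) ≤ 0 ∨ dot (p0 - p3) (p2 - p3) ≤ 0 := by
  have k := quad_id e c p0 p2 p0 p1 p2 p3
  rw [dot_l, dot_r, h1, h3] at k
  by_contra hc
  push Not at hc
  nlinarith [mul_nonneg o0.le h0, mul_nonneg o2.le h2, mul_pos o1 hc.1, mul_pos o3 hc.2]

theorem not_both {e : ℝ} {c : ℝ × ℝ × ℝ} {p0 p1 p2 p3 : Pt} (o0 : 0 < ori e p1 p2 p3)
    (o2 : 0 < ori e p0 p1 p3) (h0 : 0 ≤ pw c p0) (h1 : pw c p1 = 0) (h2 : 0 ≤ pw c p2)
    (h3 : pw c p3 = 0) (a : dot (p1 - p0) (p3 - p0) < 0) (b : dot (p1 - p2) (p3 - p2) < 0) :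
    False := by
  have k := quad_id e c p1 p3 p0 p1 p2 p3
  rw [dot_l, dot_r, h1, h3] at k
  nlinarith [mul_nonneg o0.le h0, mul_nonneg o2.le h2, mul_pos o0 (neg_pos.2 a),
    mul_pos o2 (neg_pos.2 b)]

/-- `p` and `q` are equal or joined by an edge of `E`. -/
def Ed (E : Finset (Pt × Pt)) (p q : Pt) : Prop := p = q ∨ (p, q) ∈ E ∨ (q, p) ∈ E

theorem Ed.symm {E : Finset (Pt × Pt)} {p q : Pt} (h : Ed E p q) : Ed E q p := by
  rcases h with h | h | h
  · exact Or.inl h.symm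
  · exact Or.inr (Or.inr h)
  · exact Or.inr (Or.inl h)

def Step (e : ℝ) (E : Finset (Pt × Pt)) (u p q : Pt) : Prop :=
  Ed E p q ∧ 0 ≤ dot u (q - p) ∧ 0 ≤ crs e u (q - p)

def Conn (E : Finset (Pt × Pt)) (a b : Pt) : Prop :=
  ∃ (e : ℝ) (u : Pt), e * e = 1 ∧ u ≠ 0 ∧ ReflTransGen (Step e E u) a b

theorem Conn.symm {E : Finset (Pt × Pt)} {a b : Pt} (h : Conn E a b) : Conn E b a := by
  obtain ⟨e, u, he, hu, h⟩ := h
  refine ⟨e, -u, he, neg_ne_zero.2 hu, ?_⟩
  induction h with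
  | refl => exact .refl
  | tail _ h2 ih =>
    refine .head ⟨h2.1.symm, ?_, ?_⟩ ih
    · have := h2.2.1
      simp only [dot, Prod.fst_sub, Prod.snd_sub, Prod.fst_neg, Prod.snd_neg] at this ⊢
      linarith
    · have := h2.2.2
      simp only [crs, Prod.fst_sub, Prod.snd_sub, Prod.fst_neg, Prod.snd_neg] at this ⊢
      linarith

theorem step_self {e : ℝ} {E : Finset (Pt × Pt)} {p q : Pt} (h : Ed E p q) :
    Step e E (q - p) p q :=
  ⟨h, add_nonneg (mul_self_nonneg _) (mul_self_nonneg _), le_of_eq (by simp only [crs]; ring)⟩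

theorem Conn.direct {E : Finset (Pt × Pt)} {a b : Pt} (h : Ed E a b) : Conn E a b := by
  by_cases hab : a = b
  · subst hab
    exact ⟨1, (1, 0), by norm_num, by simp, .refl⟩
  · exact ⟨1, b - a, by norm_num, sub_ne_zero.2 (Ne.symm hab), .single (step_self h)⟩

theorem Conn.hop {E : Finset (Pt × Pt)} {a b v : Pt} (h1 : Ed E a v) (h2 : Ed E b v)
    (h : dot (a - v) (b - v) ≤ 0) : Conn E a b := by
  by_cases hav : a = v
  · subst hav
    exact .direct h2.symm
  have hd : 0 ≤ dot (v - a) (b - v) := by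
    simp only [dot, Prod.fst_sub, Prod.snd_sub] at h ⊢
    linarith
  have hu : v - a ≠ 0 := sub_ne_zero.2 (Ne.symm hav)
  rcases le_total 0 (crs 1 (v - a) (b - v)) with hc | hc
  · exact ⟨1, v - a, by norm_num, hu, .head (step_self h1) (.single ⟨h2.symm, hd, hc⟩)⟩
  · refine ⟨-1, v - a, by norm_num, hu, .head (step_self h1) (.single ⟨h2.symm, hd, ?_⟩)⟩
    simp only [crs] at hc ⊢
    linarith

/-- At most `n` edges between points of `P` force the property `Q`. -/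
def Pay (P : Finset Pt) (n : ℕ) (Q : Finset (Pt × Pt) → Prop) : Prop :=
  ∃ E : Finset (Pt × Pt), (∀ d ∈ E, d.1 ∈ P ∧ d.2 ∈ P) ∧ E.card ≤ n ∧ ∀ E', E ⊆ E' → Q E'

theorem Pay.imp {P : Finset Pt} {n m : ℕ} {Q Q' : Finset (Pt × Pt) → Prop} (h : Pay P n Q)
    (hn : n ≤ m) (hQ : ∀ E, Q E → Q' E) : Pay P m Q' := by
  obtain ⟨E, h1, h2, h3⟩ := h
  exact ⟨E, h1, h2.trans hn, fun E' h => hQ _ (h3 E' h)⟩

theorem Pay.triv {P : Finset Pt} {n : ℕ} {Q : Finset (Pt × Pt) → Prop} (hQ : ∀ E, Q E) :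
    Pay P n Q :=
  ⟨∅, by simp, by simp, fun E _ => hQ E⟩

theorem Pay.and {P : Finset Pt} {n m : ℕ} {Q Q' : Finset (Pt × Pt) → Prop} (h : Pay P n Q)
    (h' : Pay P m Q') : Pay P (n + m) fun E => Q E ∧ Q' E := by
  classical
  obtain ⟨E, h1, h2, h3⟩ := h
  obtain ⟨F, g1, g2, g3⟩ := h'
  refine ⟨E ∪ F, fun d hd => (Finset.mem_union.1 hd).elim (h1 d) (g1 d),
    (Finset.card_union_le _ _).trans (add_le_add h2 g2), fun E' h => ⟨h3 _ ?_, g3 _ ?_⟩⟩
  · exact Finset.subset_union_left.trans h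
  · exact Finset.subset_union_right.trans h

theorem Pay.fin {P : Finset Pt} {I : Type} (D : Finset I) (f g : I → Pt) (hf : ∀ i, f i ∈ P)
    (hg : ∀ i, g i ∈ P) : Pay P D.card fun E => ∀ i ∈ D, Ed E (f i) (g i) := by
  classical
  refine ⟨D.image fun i => (f i, g i), fun d hd => ?_, Finset.card_image_le, fun E h i hi => ?_⟩
  · obtain ⟨i, -, rfl⟩ := Finset.mem_image.1 hd
    exact ⟨hf i, hg i⟩
  · exact Or.inr (Or.inl (h (Finset.mem_image_of_mem _ hi)))

theorem Pay.one {P : Finset Pt} {I : Type} [Fintype I] (f g : I → Pt) (hf : ∀ i, f i ∈ P)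
    (hg : ∀ i, g i ∈ P) : Pay P (Fintype.card I) fun E => ∀ i, Ed E (f i) (g i) :=
  (Pay.fin Finset.univ f g hf hg).imp le_rfl fun _ h i => h i (Finset.mem_univ i)

theorem Pay.all {P : Finset Pt} {I : Type} (s : Finset I) (n : I → ℕ)
    (Q : I → Finset (Pt × Pt) → Prop) (h : ∀ i ∈ s, Pay P (n i) (Q i)) :
    Pay P (∑ i ∈ s, n i) fun E => ∀ i ∈ s, Q i E := by
  classical
  induction s using Finset.induction_on with
  | empty => exact .triv (by simp)
  | insert a s ha ih =>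
    rw [Finset.sum_insert ha]
    refine ((h a (Finset.mem_insert_self _ _)).and
      (ih fun i hi => h i (Finset.mem_insert_of_mem hi))).imp le_rfl fun E hE i hi => ?_
    rcases Finset.mem_insert.1 hi with rfl | hi
    · exact hE.1
    · exact hE.2 i hi

theorem exists_phi {e : ℝ} (he : e * e = 1) {u : Pt} (hu : u ≠ 0) :
    ∃ φ₀, ∀ w : Pt, 0 ≤ dot u w → 0 ≤ crs e u w → w ∈ wedge φ₀ (Real.pi / 2) := by
  have main : ∀ a : Pt, a ≠ 0 → ∃ φ₀, ∀ b : Pt, 0 ≤ a.1 * b.1 + a.2 * b.2 →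
      0 ≤ a.1 * b.2 - a.2 * b.1 → b ∈ wedge φ₀ (Real.pi / 2) := by
    intro a ha
    let z : ℂ := ⟨a.1, a.2⟩
    have hz : z ≠ 0 := fun h => ha (Prod.ext (congrArg Complex.re h) (congrArg Complex.im h))
    have hr : 0 < ‖z‖ := norm_pos_iff.2 hz
    have ha1 : ‖z‖ * Real.cos z.arg = a.1 := Complex.norm_mul_cos_arg z
    have ha2 : ‖z‖ * Real.sin z.arg = a.2 := Complex.norm_mul_sin_arg z
    refine ⟨z.arg, fun b h1 h2 => ?_⟩
    let q : ℂ := ⟨b.1 * Real.cos z.arg + b.2 * Real.sin z.arg,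
      b.2 * Real.cos z.arg - b.1 * Real.sin z.arg⟩
    have hq1 : 0 ≤ q.re := by
      refine nonneg_of_mul_nonneg_right (a := ‖z‖) ?_ hr
      simp only [q]
      rw [← ha1, ← ha2] at h1
      linarith
    have hq2 : 0 ≤ q.im := by
      refine nonneg_of_mul_nonneg_right (a := ‖z‖) ?_ hr
      simp only [q]
      rw [← ha1, ← ha2] at h2
      linarith
    have hb1 : ‖q‖ * Real.cos q.arg = b.1 * Real.cos z.arg + b.2 * Real.sin z.arg :=
      Complex.norm_mul_cos_arg q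
    have hb2 : ‖q‖ * Real.sin q.arg = b.2 * Real.cos z.arg - b.1 * Real.sin z.arg :=
      Complex.norm_mul_sin_arg q
    have hcs := Real.cos_sq_add_sin_sq z.arg
    refine ⟨‖q‖, z.arg + q.arg, norm_nonneg _, by linarith [Complex.arg_nonneg_iff.2 hq2],
      by linarith [Complex.arg_le_pi_div_two_iff.2 (Or.inl hq1)], Prod.ext ?_ ?_⟩
    · simp only [Real.cos_add]
      linear_combination (-Real.cos z.arg) * hb1 + Real.sin z.arg * hb2 - b.1 * hcs
    · simp only [Real.sin_add]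
      linear_combination (-Real.sin z.arg) * hb1 - Real.cos z.arg * hb2 - b.2 * hcs
  rcases mul_self_eq_one_iff.1 he with rfl | rfl
  · obtain ⟨φ, h⟩ := main u hu
    exact ⟨φ, fun w h1 h2 => h w h1 (by simpa [crs] using h2)⟩
  · obtain ⟨φ, h⟩ := main (u.2, -u.1) (fun h0 => hu (Prod.ext
      (by simpa using congrArg Prod.snd h0) (by simpa using congrArg Prod.fst h0)))
    refine ⟨φ, fun w h1 h2 => h w ?_ ?_⟩
    · simp only [crs] at h2 ⊢
      linarith
    · simp only [dot] at h1 ⊢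
      linarith

/-- From a budget to a graph. -/
theorem graph_of_pay {P : Finset Pt} {n : ℕ}
    (h : Pay P n fun E => ∀ a ∈ P, ∀ b ∈ P, Conn E a b) :
    ∃ G : SimpleGraph P, AngleMonotone (Real.pi / 2) P G ∧ G.edgeSet.ncard ≤ n := by
  classical
  obtain ⟨E, hP, hn, hE⟩ := h
  let G : SimpleGraph P := SimpleGraph.fromRel (fun u v => ((u : Pt), (v : Pt)) ∈ E)
  refine ⟨G, fun s t => ?_, le_trans ?_ hn⟩
  · obtain ⟨e, u, he, hu, hc⟩ := hE E le_rfl s s.2 t t.2
    obtain ⟨φ, hφ⟩ := exists_phi he hu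
    have key : ∀ a : Pt, ReflTransGen (Step e E u) a t → ∀ ha : a ∈ P,
        ∃ p : G.Walk ⟨a, ha⟩ t, ∀ d ∈ p.darts,
          (d.snd : Pt) - (d.fst : Pt) ∈ wedge φ (Real.pi / 2) := by
      intro a h
      induction h using ReflTransGen.head_induction_on with
      | refl => exact fun _ => ⟨.nil, by simp⟩
      | @head a c h1 _ ih =>
        intro ha
        by_cases hac : a = c
        · subst hac
          exact ih ha
        have hE' := h1.1.resolve_left hac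
        have hc : c ∈ P := hE'.elim (fun h => (hP _ h).2) fun h => (hP _ h).1
        obtain ⟨p, hp⟩ := ih hc
        have hadj : G.Adj ⟨a, ha⟩ ⟨c, hc⟩ :=
          (SimpleGraph.fromRel_adj _ _ _).2 ⟨fun h => hac (congrArg Subtype.val h), hE'⟩
        refine ⟨.cons hadj p, fun d hd => ?_⟩
        rw [SimpleGraph.Walk.darts_cons, List.mem_cons] at hd
        rcases hd with rfl | hd
        · exact hφ _ h1.2.1 h1.2.2
        · exact hp d hd
    obtain ⟨p, hp⟩ := key s hc s.2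
    exact ⟨p.bypass, p.bypass_isPath, φ, fun d hd => hp d (p.darts_bypass_subset_darts hd)⟩
  · rw [← Set.ncard_coe_finset]
    have hsub : Sym2.map Subtype.val '' G.edgeSet ⊆
        (fun e : Pt × Pt => s(e.1, e.2)) '' (E : Set (Pt × Pt)) := by
      rintro _ ⟨e, he, rfl⟩
      induction e using Sym2.ind with
      | h u v =>
        have he' : G.Adj u v := he
        rcases ((SimpleGraph.fromRel_adj _ _ _).1 he').2 with h | h
        · exact ⟨_, h, rfl⟩
        · exact ⟨_, h, by simp⟩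
    rw [← Set.ncard_image_of_injective _ (Sym2.map.injective Subtype.val_injective)]
    exact (Set.ncard_le_ncard hsub (E.finite_toSet.image _)).trans
      (Set.ncard_image_le E.finite_toSet)

end Pool.Agent.Lib.MP_9a669f_co.Cv
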