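import Mathlib
import Pool.Agent.Lib.MP_9a669f_co.CvBase

/-! Two chains of a convex polygon: the Delaunay ladder, its zones, and linearly many edges. -/

namespace Pool.Agent.Lib.MP_9a669f_co.Cv

open Relation

theorem exists_least {K : Type} [LinearOrder K] [Finite K] [Nonempty K] (p : K → Prop) :
    ∃ m, ∀ r, p r → p m ∧ m ≤ r := by
  by_cases h : ∃ r, p r
  · obtain ⟨m, hm, h2⟩ := Set.exists_min_image {r | p r} id (Set.toFinite _) h
    exact ⟨m, fun r hr => ⟨hm, h2 r hr⟩⟩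
  · exact ⟨Classical.arbitrary K, fun r hr => (h ⟨r, hr⟩).elim⟩

theorem exists_greatest {K : Type} [LinearOrder K] [Finite K] [Nonempty K] (p : K → Prop) :
    ∃ m, ∀ r, p r → p m ∧ r ≤ m :=
  exists_least (K := Kᵒᵈ) p

/-- The combinatorial zone decomposition of an initial segment of the ladder. -/
theorem zones {K V : Type} [LinearOrder K] [Finite K] [Nonempty V] (L Ob : V → K → Prop) (s : K) :
    ∃ (top fst prv : K → K) (hub : K → V),
      (∀ v r, r ≤ s → L v r → Ob v s → top r = s) ∧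
      ∀ v r r', L v r → r ≤ r' → r' ≤ s → (∀ q, r ≤ q → q ≤ r' → Ob v q) →
        (top r = r' ∨ fst r' = r ∨ (top r = prv r' ∧ r ≤ prv r' ∧ prv r' ≤ r')) ∨
        (hub r = hub r' ∧ (∃ q, q < r ∧ L (hub r) q) ∧ ∃ q, r' < q ∧ Ob (hub r) q) := by
  classical
  induction s using WellFoundedLT.induction with
  | ind s ih =>
  have : Nonempty K := ⟨s⟩
  obtain ⟨g, hg⟩ := exists_least fun q => q = s ∨ ∃ w, Ob w s ∧ L w q
  obtain ⟨hg1, hgs⟩ := hg s (Or.inl rfl)
  obtain ⟨w, hw⟩ : ∃ w, g ≠ s → Ob w s ∧ L w g := by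
    rcases hg1 with h | ⟨w, h⟩
    · exact ⟨Classical.arbitrary V, fun h' => (h' h).elim⟩
    · exact ⟨w, fun _ => h⟩
  obtain ⟨s', hs'⟩ := exists_greatest fun q => q < g
  obtain ⟨top, fst, prv, hub, H⟩ : ∃ (top fst prv : K → K) (hub : K → V), s' < g →
      (∀ v r, r ≤ s' → L v r → Ob v s' → top r = s') ∧
      ∀ v r r', L v r → r ≤ r' → r' ≤ s' → (∀ q, r ≤ q → q ≤ r' → Ob v q) →
        (top r = r' ∨ fst r' = r ∨ (top r = prv r' ∧ r ≤ prv r' ∧ prv r' ≤ r')) ∨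
        (hub r = hub r' ∧ (∃ q, q < r ∧ L (hub r) q) ∧ ∃ q, r' < q ∧ Ob (hub r) q) := by
    by_cases h : s' < g
    · obtain ⟨top, fst, prv, hub, H⟩ := ih s' (h.trans_le hgs)
      exact ⟨top, fst, prv, hub, fun _ => H⟩
    · exact ⟨id, id, id, fun _ => w, fun h' => (h h').elim⟩
  refine ⟨fun r => if g ≤ r then s else top r, fun r => if g ≤ r then g else fst r,
    fun r => if g ≤ r then s' else prv r, fun r => if g ≤ r then w else hub r, ?_, ?_⟩
  · intro v r _ hL hO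
    exact if_pos (hg r (Or.inr ⟨v, hO, hL⟩)).2
  intro v r r' hL hrr hr' hO
  by_cases h1 : g ≤ r
  · have h2 : g ≤ r' := h1.trans hrr
    simp only [if_pos h1, if_pos h2]
    rcases hr'.eq_or_lt with h3 | h3
    · exact Or.inl (Or.inl h3.symm)
    rcases h1.eq_or_lt with h4 | h4
    · exact Or.inl (Or.inr (Or.inl h4))
    obtain ⟨a1, a2⟩ := hw (h2.trans_lt h3).ne
    exact Or.inr ⟨trivial, ⟨g, h4, a2⟩, s, h3, a1⟩
  obtain ⟨b1, b2⟩ := hs' r (not_le.1 h1)
  obtain ⟨H1, H2⟩ := H b1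
  by_cases h2 : g ≤ r'
  · simp only [if_neg h1, if_pos h2]
    have b3 : s' ≤ r' := b1.le.trans h2
    exact Or.inl (Or.inr (Or.inr ⟨H1 v r b2 hL (hO s' b2 b3), b2, b3⟩))
  · simp only [if_neg h1, if_neg h2]
    exact H2 v r r' hL hrr (hs' r' (not_le.1 h2)).2 hO

/-- Two chains in convex position, each monotone inside one quadrant. -/
structure Cfg (e : ℝ) {A B : Type} [LinearOrder A] [LinearOrder B] (x : A → Pt) (y : B → Pt) :
    Prop where
  he : e * e = 1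
  xxx : ∀ {i j k}, i < j → j < k → 0 < ori e (x i) (x j) (x k)
  xxy : ∀ {i j} k, i < j → 0 < ori e (x i) (x j) (y k)
  xyy : ∀ i {k l}, k < l → 0 < ori e (x i) (y l) (y k)
  yyy : ∀ {k l r}, k < l → l < r → 0 < ori e (y r) (y l) (y k)
  qx : ∀ {i j k l}, i ≤ j → k ≤ l → 0 ≤ dot (x j - x i) (x l - x k)
  qy : ∀ {i j k l}, i ≤ j → k ≤ l → 0 ≤ dot (y j - y i) (y l - y k)

variable {e : ℝ} {A B : Type} [LinearOrder A] [LinearOrder B] {x : A → Pt} {y : B → Pt}

theorem dot_flip (p q r s : Pt) : dot (p - q) (r - s) = dot (q - p) (s - r) := by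
  simp only [dot, Prod.fst_sub, Prod.snd_sub]; ring

theorem dot_comm (u v : Pt) : dot u v = dot v u := by
  simp only [dot]; ring

theorem Cfg.rot (h : Cfg e x y) : Cfg (A := Bᵒᵈ) (B := Aᵒᵈ) e y x where
  he := h.he
  xxx := fun h1 h2 => h.yyy h2 h1
  xxy := fun k h1 => by rw [← ori_cyc]; exact h.xyy k h1
  xyy := fun i _ _ h1 => by rw [ori_cyc]; exact h.xxy i h1
  yyy := fun h1 h2 => h.xxx h2 h1
  qx := fun h1 h2 => by rw [dot_flip]; exact h.qy h1 h2
  qy := fun h1 h2 => by rw [dot_flip]; exact h.qx h1 h2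

theorem Cfg.mir (h : Cfg e x y) : Cfg (-e) y x where
  he := by rw [neg_mul_neg]; exact h.he
  xxx := fun h1 h2 => by rw [ori_neg]; exact h.yyy h1 h2
  xxy := fun k h1 => by rw [ori_neg]; exact h.xyy k h1
  xyy := fun i _ _ h1 => by rw [ori_neg]; exact h.xxy i h1
  yyy := fun h1 h2 => by rw [ori_neg]; exact h.xxx h1 h2
  qx := h.qy
  qy := h.qx

/-- The pair lies on a circle with no vertex strictly inside. -/
def Dl (x : A → Pt) (y : B → Pt) (i : A) (k : B) : Prop :=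
  ∃ c, pw c (x i) = 0 ∧ pw c (y k) = 0 ∧ (∀ j, 0 ≤ pw c (x j)) ∧ ∀ l, 0 ≤ pw c (y l)

omit [LinearOrder A] [LinearOrder B] in
theorem Dl.swap {i : A} {k : B} (h : Dl x y i k) : Dl y x k i := by
  obtain ⟨c, h1, h2, h3, h4⟩ := h
  exact ⟨c, h2, h1, h4, h3⟩

theorem pw_shift (e t : ℝ) (c : ℝ × ℝ × ℝ) (p q : Pt) :
    ∃ c', ∀ z, pw c' z = pw c z - t * ori e p z q := by
  refine ⟨(c.1 - t * e * (q.2 - p.2), c.2.1 + t * e * (q.1 - p.1),
    c.2.2 + t * e * (p.1 * q.2 - p.2 * q.1)), fun z => ?_⟩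
  simp only [pw, ori, crs, Prod.fst_sub, Prod.snd_sub]; ring

theorem ori_self' (e : ℝ) (p q : Pt) : ori e p p q = 0 := by
  simp only [ori, crs, Prod.fst_sub, Prod.snd_sub]; ring

theorem ori_swap (e : ℝ) (p q r : Pt) : ori e p q r = -ori e q p r := by
  simp only [ori, crs, Prod.fst_sub, Prod.snd_sub]; ring

/-- Sliding the circle through a rung until it meets a vertex on the right. -/
theorem Cfg.slide [Finite A] [Finite B] (h : Cfg e x y) {i : A} {k : B} {c : ℝ × ℝ × ℝ}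
    (h1 : pw c (x i) = 0) (h2 : pw c (y k) = 0)
    (hc : ((∀ j, 0 ≤ pw c (x j)) ∧ ∀ l, 0 ≤ pw c (y l)) ∨ ((∀ j, i ≤ j) ∧ ∀ l, k ≤ l))
    (hne : (∃ j, i < j) ∨ ∃ l, k < l) :
    Dl x y i k ∧ ((∃ j, i < j ∧ Dl x y j k) ∨ ∃ l, k < l ∧ Dl x y i l) := by
  let pt : A ⊕ B → Pt := Sum.elim x y
  let Rt : A ⊕ B → Prop := Sum.elim (fun j => i < j) fun l => k < l
  have hR : ∀ v, Rt v → 0 < ori e (x i) (pt v) (y k) := by
    rintro (j | l) hv
    · exact h.xxy k hv
    · exact h.xyy i hv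
  have hL : ∀ v, ¬Rt v → ori e (x i) (pt v) (y k) ≤ 0 := by
    rintro (j | l) hv
    · rcases (not_lt.1 hv : j ≤ i).eq_or_lt with rfl | h3
      · exact (ori_self' _ _ _).le
      · have := h.xxy k h3
        rw [ori_swap] at this
        exact neg_nonneg.1 this.le
    · rcases (not_lt.1 hv : l ≤ k).eq_or_lt with rfl | h3
      · exact (ori_self _ _ _).le
      · have := h.xyy i h3
        rw [ori_cyc, ori_swap, ori_cyc, ori_cyc] at this
        exact neg_nonneg.1 this.le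
  obtain ⟨z, hz, hmin⟩ := Set.exists_min_image {v | Rt v}
    (fun v => pw c (pt v) / ori e (x i) (pt v) (y k)) (Set.toFinite _)
    (hne.elim (fun ⟨j, hj⟩ => ⟨.inl j, hj⟩) fun ⟨l, hl⟩ => ⟨.inr l, hl⟩)
  obtain ⟨c', hc'⟩ := pw_shift e (pw c (pt z) / ori e (x i) (pt z) (y k)) c (x i) (y k)
  have a1 : pw c' (x i) = 0 := by rw [hc', h1, ori_self']; simp
  have a2 : pw c' (y k) = 0 := by rw [hc', h2, ori_self]; simp
  have a3 : pw c' (pt z) = 0 := by rw [hc', div_mul_cancel₀ _ (hR z hz).ne', sub_self]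
  have a4 : ∀ v, 0 ≤ pw c' (pt v) := by
    intro v
    by_cases hv : Rt v
    · rw [hc', sub_nonneg, ← le_div_iff₀ (hR v hv)]
      exact hmin v hv
    rcases hc with hc | hc
    · have b : ∀ v, 0 ≤ pw c (pt v) := by
        rintro (j | l)
        · exact hc.1 j
        · exact hc.2 l
      rw [hc']
      have := mul_nonneg (div_nonneg (b z) (hR z hz).le) (neg_nonneg.2 (hL v hv))
      linarith [b v]
    · rcases v with j | l
      · have : j = i := le_antisymm (not_lt.1 hv) (hc.1 j)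
        subst this
        exact a1.ge
      · have : l = k := le_antisymm (not_lt.1 hv) (hc.2 l)
        subst this
        exact a2.ge
  have a5 : ∀ j, 0 ≤ pw c' (x j) := fun j => a4 (.inl j)
  have a6 : ∀ l, 0 ≤ pw c' (y l) := fun l => a4 (.inr l)
  refine ⟨⟨c', a1, a2, a5, a6⟩, ?_⟩
  rcases z with j | l
  · exact Or.inl ⟨j, hz, c', a3, a2, a5, a6⟩
  · exact Or.inr ⟨l, hz, c', a1, a3, a5, a6⟩

open Finset in
theorem Cfg.ladder_from [Fintype A] [Fintype B] (h : Cfg e x y) (n : ℕ) : ∀ (i : A) (k : B),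
    #{a | i < a} + #{b | k < b} = n →
    (∃ c, pw c (x i) = 0 ∧ pw c (y k) = 0 ∧
      (((∀ j, 0 ≤ pw c (x j)) ∧ ∀ l, 0 ≤ pw c (y l)) ∨ ((∀ j, i ≤ j) ∧ ∀ l, k ≤ l))) →
    ∃ R D : Finset (A × B), (∀ r ∈ R, Dl x y r.1 r.2) ∧ (∀ r ∈ R, (i, k) ≤ r) ∧
      (∀ r ∈ R, ∀ s ∈ R, r ≤ s ∨ s ≤ r) ∧ D.card ≤ n + 1 ∧
      ∀ a b, i ≤ a → k ≤ b → (a, b) ∈ D ∨
        ∃ r ∈ R, (a < r.1 ∧ r.2 < b) ∨ (r.1 < a ∧ b < r.2) := by
  classical
  induction n using Nat.strong_induction_on with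
  | h n ih =>
  rintro i k hn ⟨c, h1, h2, hc⟩
  by_cases hne : (∃ j, i < j) ∨ ∃ l, k < l
  swap
  · push Not at hne
    refine ⟨∅, {(i, k)}, by simp, by simp, by simp, by simp, fun a b ha hb => Or.inl ?_⟩
    rw [le_antisymm (hne.1 a) ha, le_antisymm (hne.2 b) hb]
    exact mem_singleton_self _
  rcases (h.slide h1 h2 hc hne).2 with ⟨j, hj, hD⟩ | ⟨l, hl, hD⟩
  · have hcard : #{a | j < a} + #{a | i < a ∧ a ≤ j} = #{a | i < a} := by
      rw [← card_union_of_disjoint (by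
        rw [disjoint_filter]; exact fun a _ h3 h4 => absurd h3 (not_lt.2 h4.2))]
      refine congrArg card (ext fun a => ?_)
      simp only [mem_union, mem_filter, mem_univ, true_and]
      exact ⟨fun h3 => h3.elim hj.trans And.left,
        fun h3 => (lt_or_ge j a).imp id fun h4 => ⟨h3, h4⟩⟩
    have hpos : 0 < #{a | i < a ∧ a ≤ j} := card_pos.2 ⟨j, by simp [hj]⟩
    have hsame : #{a | i ≤ a ∧ a < j} ≤ #{a | i < a ∧ a ≤ j} := by
      have e1 : ({a | i ≤ a ∧ a < j} : Finset A) ⊆ insert i (({a | i < a ∧ a ≤ j} : Finset A).erase j) := by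
        intro a ha
        simp only [mem_filter, mem_univ, true_and, mem_insert, mem_erase] at ha ⊢
        exact ha.1.eq_or_lt.imp Eq.symm fun h3 => ⟨ha.2.ne, h3, ha.2.le⟩
      have e2 := (card_le_card e1).trans (card_insert_le _ _)
      rw [card_erase_of_mem (by simp [hj])] at e2
      omega
    obtain ⟨c', b1, b2, b3⟩ := hD
    obtain ⟨R, D, r1, r2, r3, r4, r5⟩ := ih _ (by omega) j k rfl ⟨c', b1, b2, Or.inl b3⟩
    refine ⟨insert (j, k) R, D ∪ ({a | i ≤ a ∧ a < j} : Finset A).image fun a => (a, k),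
      ?_, ?_, ?_, ?_, fun a b ha hb => ?_⟩
    · exact forall_mem_insert _ _ _ |>.2 ⟨⟨c', b1, b2, b3⟩, r1⟩
    · exact forall_mem_insert _ _ _ |>.2 ⟨⟨hj.le, le_rfl⟩,
        fun r hr => le_trans (show (i, k) ≤ (j, k) from ⟨hj.le, le_rfl⟩) (r2 r hr)⟩
    · intro r hr s hs
      rcases mem_insert.1 hr with rfl | hr <;> rcases mem_insert.1 hs with rfl | hs
      exacts [Or.inl le_rfl, Or.inl (r2 s hs), Or.inr (r2 r hr), r3 r hr s hs]
    · have := (card_union_le D _).trans (add_le_add r4 (card_image_le.trans hsame :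
        (({a | i ≤ a ∧ a < j} : Finset A).image fun a => (a, k)).card ≤ _))
      omega
    rcases le_or_gt j a with h3 | h3
    · exact (r5 a b h3 hb).imp (fun h4 => mem_union_left _ h4)
        fun ⟨r, h4, h5⟩ => ⟨r, mem_insert_of_mem h4, h5⟩
    rcases hb.eq_or_lt with rfl | h4
    · exact Or.inl (mem_union_right _ (mem_image.2 ⟨a, by simp [ha, h3], rfl⟩))
    · exact Or.inr ⟨(j, k), mem_insert_self _ _, Or.inl ⟨h3, h4⟩⟩
  · have hcard : #{a | l < a} + #{a | k < a ∧ a ≤ l} = #{a | k < a} := by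
      rw [← card_union_of_disjoint (by
        rw [disjoint_filter]; exact fun a _ h3 h4 => absurd h3 (not_lt.2 h4.2))]
      refine congrArg card (ext fun a => ?_)
      simp only [mem_union, mem_filter, mem_univ, true_and]
      exact ⟨fun h3 => h3.elim hl.trans And.left,
        fun h3 => (lt_or_ge l a).imp id fun h4 => ⟨h3, h4⟩⟩
    have hpos : 0 < #{a | k < a ∧ a ≤ l} := card_pos.2 ⟨l, by simp [hl]⟩
    have hsame : #{a | k ≤ a ∧ a < l} ≤ #{a | k < a ∧ a ≤ l} := by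
      have e1 : ({a | k ≤ a ∧ a < l} : Finset B) ⊆ insert k (({a | k < a ∧ a ≤ l} : Finset B).erase l) := by
        intro a ha
        simp only [mem_filter, mem_univ, true_and, mem_insert, mem_erase] at ha ⊢
        exact ha.1.eq_or_lt.imp Eq.symm fun h3 => ⟨ha.2.ne, h3, ha.2.le⟩
      have e2 := (card_le_card e1).trans (card_insert_le _ _)
      rw [card_erase_of_mem (by simp [hl])] at e2
      omega
    obtain ⟨c', b1, b2, b3⟩ := hD
    obtain ⟨R, D, r1, r2, r3, r4, r5⟩ := ih _ (by omega) i l rfl ⟨c', b1, b2, Or.inl b3⟩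
    refine ⟨insert (i, l) R, D ∪ ({a | k ≤ a ∧ a < l} : Finset B).image fun b => (i, b),
      ?_, ?_, ?_, ?_, fun a b ha hb => ?_⟩
    · exact forall_mem_insert _ _ _ |>.2 ⟨⟨c', b1, b2, b3⟩, r1⟩
    · exact forall_mem_insert _ _ _ |>.2 ⟨⟨le_rfl, hl.le⟩,
        fun r hr => le_trans (show (i, k) ≤ (i, l) from ⟨le_rfl, hl.le⟩) (r2 r hr)⟩
    · intro r hr s hs
      rcases mem_insert.1 hr with rfl | hr <;> rcases mem_insert.1 hs with rfl | hs
      exacts [Or.inl le_rfl, Or.inl (r2 s hs), Or.inr (r2 r hr), r3 r hr s hs]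
    · have := (card_union_le D _).trans (add_le_add r4 (card_image_le.trans hsame :
        (({a | k ≤ a ∧ a < l} : Finset B).image fun b => (i, b)).card ≤ _))
      omega
    rcases le_or_gt l b with h3 | h3
    · exact (r5 a b ha h3).imp (fun h4 => mem_union_left _ h4)
        fun ⟨r, h4, h5⟩ => ⟨r, mem_insert_of_mem h4, h5⟩
    rcases ha.eq_or_lt with rfl | h4
    · exact Or.inl (mem_union_right _ (mem_image.2 ⟨b, by simp [hb, h3], rfl⟩))
    · exact Or.inr ⟨(i, l), mem_insert_self _ _, Or.inr ⟨h4, h3⟩⟩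

open Finset in
/-- The Delaunay ladder between two chains. -/
theorem Cfg.ladder [Fintype A] [Fintype B] [Nonempty A] [Nonempty B] (h : Cfg e x y) :
    ∃ R D : Finset (A × B), (∀ r ∈ R, Dl x y r.1 r.2) ∧
      (∀ r ∈ R, ∀ s ∈ R, r ≤ s ∨ s ≤ r) ∧ D.card ≤ Fintype.card A + Fintype.card B ∧
      ∀ a b, (a, b) ∈ D ∨ ∃ r ∈ R, (a < r.1 ∧ r.2 < b) ∨ (r.1 < a ∧ b < r.2) := by
  classical
  obtain ⟨i, hi⟩ := exists_least fun _ : A => True
  obtain ⟨k, hk⟩ := exists_least fun _ : B => True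
  have hi' : ∀ j, i ≤ j := fun j => (hi j trivial).2
  have hk' : ∀ l, k ≤ l := fun l => (hk l trivial).2
  obtain ⟨R, D, r1, -, r3, r4, r5⟩ := h.ladder_from _ i k rfl
    ⟨(-((x i).1 + (y k).1), -((x i).2 + (y k).2), (x i).1 * (y k).1 + (x i).2 * (y k).2),
      by simp only [pw]; ring, by simp only [pw]; ring, Or.inr ⟨hi', hk'⟩⟩
  refine ⟨R, D, r1, r3, ?_, fun a b => r5 a b (hi' a) (hk' b)⟩
  have e1 : #{a | i < a} < Fintype.card A :=
    card_lt_card ⟨subset_univ _, fun h => by simpa using h (mem_univ i)⟩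
  have e2 : #{a | k < a} ≤ Fintype.card B := card_le_univ _
  omega

end Pool.Agent.Lib.MP_9a669f_co.Cv
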