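import Mathlib
import Pool.Agent.Lib.MP_9a669f_co.CvLadder

/-! Linearly many edges serve all pairs of points on two chains of a convex polygon. -/

namespace Pool.Agent.Lib.MP_9a669f_co.Cv

open Relation

variable {e : ℝ} {A B : Type} [LinearOrder A] [LinearOrder B] {x : A → Pt} {y : B → Pt}
  {P : Finset Pt}

/-- Consecutive points of the chain are joined. -/
def Lk (x : A → Pt) (E : Finset (Pt × Pt)) : Prop := ∀ i j, i ⋖ j → Ed E (x i) (x j)

theorem pay_lk [Fintype A] (hx : ∀ i, x i ∈ P) : Pay P (Fintype.card A) (Lk x) := by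
  have : ∀ i : A, ∃ j, ∀ j', i ⋖ j' → j' = j := by
    intro i
    by_cases h : ∃ j, i ⋖ j
    · obtain ⟨j, hj⟩ := h
      exact ⟨j, fun j' hj' => hj'.unique_right hj⟩
    · exact ⟨i, fun j' hj' => (h ⟨j', hj'⟩).elim⟩
  choose nx hnx using this
  refine (Pay.one x (fun i => x (nx i)) hx fun i => hx _).imp le_rfl fun E h i j hij => ?_
  rw [hnx i j hij]
  exact h i

theorem walk [Finite A] {E : Finset (Pt × Pt)} (hE : Lk x E) {u : Pt} {i : A} (j : A)
    (hij : i ≤ j) (h : ∀ p q, i ≤ p → p < q → q ≤ j →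
      0 ≤ dot u (x q - x p) ∧ 0 ≤ crs e u (x q - x p)) :
    ReflTransGen (Step e E u) (x i) (x j) := by
  induction j using WellFoundedLT.induction with
  | ind j ih =>
  rcases hij.eq_or_lt with rfl | hlt
  · exact .refl
  obtain ⟨p, hp, hc⟩ := exists_le_covBy_of_lt hlt
  exact .tail (ih p hc.lt hp fun a b h1 h2 h3 => h a b h1 h2 (h3.trans hc.le))
    ⟨hE p j hc, h p j hp hc.lt le_rfl⟩

theorem Cfg.xxx' (h : Cfg e x y) {i j k : A} (h1 : i < j) (h2 : j ≤ k) :
    0 ≤ ori e (x i) (x j) (x k) := by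
  rcases h2.eq_or_lt with rfl | h2
  · exact (ori_self _ _ _).ge
  · exact (h.xxx h1 h2).le

theorem ori_crs (e : ℝ) (p q r : Pt) : ori e p q r = crs e (q - p) (r - q) := by
  simp only [ori, crs, Prod.fst_sub, Prod.snd_sub]; ring

/-- After the step from `x a` to `x i` the floor can be followed inside the same wedge. -/
theorem Cfg.walk_x [Finite A] (h : Cfg e x y) {E : Finset (Pt × Pt)} (hE : Lk x E) {a i j : A}
    (h1 : a < i) (h2 : i ≤ j) : ReflTransGen (Step e E (x i - x a)) (x i) (x j) := by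
  refine walk hE j h2 fun p q hp hpq _ => ⟨h.qx h1.le hpq.le, ?_⟩
  have hap := h1.trans_le hp
  have o := h.xxx hap hpq
  refine crs_trans (v := x p - x a) (ne_zero_of_crs o) (h.xxx' h1 hp) ?_ (h.qx hap.le hpq.le)
    (h.qx h1.le hap.le)
  rw [← ori_crs]
  exact o.le

theorem Cfg.ap [Finite A] [Finite B] (h : Cfg e x y) {E : Finset (Pt × Pt)} (hx : Lk x E)
    (hy : Lk y E) {a i i' : A} {k k' b : B} (h1 : a < i) (h2 : i ≤ i') (h3 : k ≤ k')
    (h4 : k' < b) (d1 : 0 ≤ dot (x i - x a) (y k - x a))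
    (d2 : 0 ≤ dot (x i' - y b) (y k' - y b)) (e1 : Ed E (x a) (x i)) (e2 : Ed E (x a) (y k))
    (e3 : Ed E (y b) (x i')) (e4 : Ed E (y b) (y k')) : Conn E (x a) (y b) := by
  have o1 := h.xxy b h1
  have o2 := h.xyy a (h3.trans_lt h4)
  have o3 := h.xxy b (h1.trans_le h2)
  have o4 := h.xyy a h4
  have o5 := h.xxy k h1
  have o6 := h.xyy i' h4
  have := four_vec h.he (g := y b - x a) (d1 := x i - x a) (e1 := y k - x a) (d2 := y b - x i')
    (e2 := y b - y k') o1 o2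
    (by simp only [ori, crs, Prod.fst_sub, Prod.snd_sub] at o3 ⊢; linarith)
    (by simp only [ori, crs, Prod.fst_sub, Prod.snd_sub] at o4 ⊢; linarith) o5 d1
    (by simp only [ori, crs, Prod.fst_sub, Prod.snd_sub] at o6 ⊢; linarith)
    (by rw [dot_flip]; exact d2)
  rcases this with ⟨g1, g2⟩ | ⟨g1, g2⟩
  · exact ⟨e, x i - x a, h.he, ne_zero_of_crs o1,
      .head (step_self e1) ((h.walk_x hx h1 h2).tail ⟨e3.symm, g1, g2⟩)⟩
  · have hy' : Lk (A := Bᵒᵈ) y E := fun i j hij => (hy j i hij.ofDual).symm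
    refine Conn.symm ⟨e, y k' - y b, h.he, ?_, .head (step_self e4)
      ((h.rot.walk_x hy' (a := b) (i := k') (j := k) h4 h3).tail ⟨e2.symm, ?_, ?_⟩)⟩
    · rw [ori_cyc] at o4
      exact ne_zero_of_crs o4
    · rw [dot_flip]
      exact g1
    · simp only [crs, Prod.fst_sub, Prod.snd_sub] at g2 ⊢
      linarith

theorem Cfg.common (h : Cfg e x y) {E : Finset (Pt × Pt)} {a i : A} {k b : B} (hD : Dl x y i k)
    (h1 : a < i) (h2 : k < b) (e1 : Ed E (x a) (x i) ∧ Ed E (x a) (y k))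
    (e2 : Ed E (y b) (x i) ∧ Ed E (y b) (y k)) : Conn E (x a) (y b) := by
  obtain ⟨c, c1, c2, c3, c4⟩ := hD
  rcases lemQ (h.xyy i h2) (h.xyy a h2) (h.xxy k h1) (h.xxy b h1) (c3 a) c1 (c4 b) c2 with g | g
  · exact .hop e1.1 e2.1 g
  · exact .hop e1.2 e2.2 g

variable {K : Type} [LinearOrder K] {X : K → A} {Y : K → B}

omit [LinearOrder A] [LinearOrder B] [LinearOrder K] in
theorem pay_rung {I : Type} [Fintype I] (hx : ∀ i, x i ∈ P) (hy : ∀ i, y i ∈ P) (f : I → Pt)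
    (hf : ∀ i, f i ∈ P) (ρ : I → K) : Pay P (2 * Fintype.card I) fun E =>
      ∀ i, Ed E (f i) (x (X (ρ i))) ∧ Ed E (f i) (y (Y (ρ i))) :=
  ((Pay.one f (fun i => x (X (ρ i))) hf fun _ => hx _).and
    (Pay.one f (fun i => y (Y (ρ i))) hf fun _ => hy _)).imp (by omega)
    fun _ h i => ⟨h.1 i, h.2 i⟩

/-- Pairs all of whose separating rungs are seen under an obtuse angle from the left point. -/
theorem Cfg.zone [Fintype A] [Fintype B] [Finite K] [Nonempty K] (h : Cfg e x y)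
    (hx : ∀ i, x i ∈ P) (hy : ∀ i, y i ∈ P) (hX : Monotone X) (hY : Monotone Y)
    (hD : ∀ r, Dl x y (X r) (Y r)) :
    Pay P (7 * (Fintype.card A + Fintype.card B)) fun E => ∀ a b, (∃ r, a < X r ∧ Y r < b) →
      (∀ r, a < X r → Y r < b → dot (x (X r) - x a) (y (Y r) - x a) < 0) →
      Conn E (x a) (y b) := by
  let pt : A ⊕ B → Pt := Sum.elim x y
  have hpt : ∀ v, pt v ∈ P := by
    rintro (j | l)
    exacts [hx j, hy l]
  let L : A ⊕ B → K → Prop := fun v r => Sum.elim (fun j => j < X r) (fun l => l < Y r) v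
  have : Nonempty (A ⊕ B) := ⟨.inl (X (Classical.arbitrary K))⟩
  obtain ⟨s, hs⟩ := exists_greatest fun _ : K => True
  obtain ⟨top, fst, prv, hub, -, H⟩ := zones L
    (fun v r => L v r ∧ dot (x (X r) - pt v) (y (Y r) - pt v) < 0) s
  choose ia hia using fun a : A => exists_least fun r => a < X r
  choose jb hjb using fun b : B => exists_greatest fun r => Y r < b
  refine (((((pay_rung (X := X) (Y := Y) hx hy x hx ia).and
    (pay_rung (X := X) (Y := Y) hx hy x hx fun a => top (ia a))).and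
    (Pay.one x (fun a => pt (hub (ia a))) hx fun _ => hpt _)).and
    (((pay_rung (X := X) (Y := Y) hx hy y hy jb).and
    (pay_rung (X := X) (Y := Y) hx hy y hy fun b => fst (jb b))).and
    (pay_rung (X := X) (Y := Y) hx hy y hy fun b => prv (jb b)))).and
    (Pay.one y (fun b => pt (hub (jb b))) hy fun _ => hpt _)).imp (by omega) ?_
  rintro E ⟨⟨⟨⟨p1, p2⟩, p3⟩, ⟨p4, p5⟩, p6⟩, p7⟩ a b ⟨r0, r1, r2⟩ hO
  obtain ⟨a1, a2⟩ := hia a r0 r1
  obtain ⟨b1, b2⟩ := hjb b r0 r2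
  have hab := a2.trans b2
  have sep : ∀ q, ia a ≤ q → q ≤ jb b → a < X q ∧ Y q < b :=
    fun q q1 q2 => ⟨a1.trans_le (hX q1), (hY q2).trans_lt b1⟩
  rcases H (.inl a) (ia a) (jb b) a1 hab (hs _ trivial).2
    (fun q q1 q2 => ⟨(sep q q1 q2).1, hO q (sep q q1 q2).1 (sep q q1 q2).2⟩) with
    (g | g | ⟨g, g1, g2⟩) | ⟨g, ⟨q, q1, q2⟩, t, t1, t2, t3⟩
  · exact h.common (hD _) (sep _ hab le_rfl).1 b1 (g ▸ p2 a) (p4 b)
  · exact h.common (hD _) a1 (sep _ le_rfl hab).2 (p1 a) (g ▸ p5 b)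
  · exact h.common (hD _) (sep _ g1 g2).1 (sep _ g1 g2).2 (g ▸ p2 a) (p6 b)
  have c1 : X q ≤ a := not_lt.1 fun hc => absurd (hia a q hc).2 (not_le.2 q1)
  have c2 : b ≤ Y t := not_lt.1 fun hc => absurd (hjb b t hc).2 (not_le.2 t1)
  have c3 : a < X t := a1.trans_le (hX (hab.trans t1.le))
  refine .hop (p3 a) (g ▸ p7 b) ?_
  generalize hub (ia a) = w at q2 t2 t3
  rcases w with c | c
  · have c4 : c < a := lt_of_lt_of_le q2 c1
    refine cap (e := e) (h.xxx c4 c3).le (h.xxy _ (c4.trans c3)) ?_ (h.xxy b c4).le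
      (h.xxy _ c4) t3
    rcases c2.eq_or_lt with g3 | g3
    · rw [← g3]
      exact (ori_self _ _ _).ge
    · exact (h.xyy c g3).le
  · have c4 : c < b := lt_of_lt_of_le q2 ((hY (q1.le.trans hab)).trans b1.le)
    have c5 : c < Y t := c4.trans_le c2
    have u1 := h.xxy c c3
    have u2 := h.xyy (X t) c5
    have u4 := h.xyy a c4
    have u5 := h.xyy a c5
    rw [ori_cyc, ori_cyc] at u1 u2 u4 u5
    refine cap (e := e) u1.le u2 ?_ u4.le u5 t3
    rcases c2.eq_or_lt with g3 | g3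
    · rw [← g3]
      exact (ori_self _ _ _).ge
    · have u3 := h.yyy c4 g3
      rw [ori_cyc, ori_cyc] at u3
      exact u3.le

/-- Pairs with the floor point on the left of some rung and the ceiling point on its right. -/
theorem Cfg.half [Fintype A] [Fintype B] [Finite K] [Nonempty K] (h : Cfg e x y)
    (hx : ∀ i, x i ∈ P) (hy : ∀ i, y i ∈ P) (hX : Monotone X) (hY : Monotone Y)
    (hD : ∀ r, Dl x y (X r) (Y r)) :
    Pay P (18 * (Fintype.card A + Fintype.card B)) fun E => Lk x E → Lk y E →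
      ∀ a b, (∃ r, a < X r ∧ Y r < b) → Conn E (x a) (y b) := by
  choose al hal using fun a : A =>
    exists_least fun r => a < X r ∧ 0 ≤ dot (x (X r) - x a) (y (Y r) - x a)
  choose am ham using fun a : A => exists_greatest fun r => r < al a
  choose be hbe using fun b : B =>
    exists_greatest fun r => Y r < b ∧ 0 ≤ dot (x (X r) - y b) (y (Y r) - y b)
  have z2 := Cfg.zone (A := Bᵒᵈ) (B := Aᵒᵈ) (K := Kᵒᵈ) (X := Y) (Y := X) h.rot hy hx
    (fun _ _ g => hY g) (fun _ _ g => hX g) fun r => (hD r).swap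
  rw [Fintype.card_orderDual, Fintype.card_orderDual] at z2
  refine (((h.zone hx hy hX hY hD).and z2).and
    (((pay_rung (X := X) (Y := Y) hx hy x hx al).and
    (pay_rung (X := X) (Y := Y) hx hy x hx am)).and
    (pay_rung (X := X) (Y := Y) hx hy y hy be))).imp (by omega) ?_
  rintro E ⟨⟨p1, p2⟩, ⟨p3, p4⟩, p5⟩ lx ly a b ⟨r0, r1, r2⟩
  by_cases c1 : ∀ r, a < X r → Y r < b → dot (x (X r) - x a) (y (Y r) - x a) < 0
  · exact p1 a b ⟨r0, r1, r2⟩ c1
  by_cases c2 : ∀ r, Y r < b → a < X r → dot (y (Y r) - y b) (x (X r) - y b) < 0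
  · exact (p2 b a ⟨r0, r2, r1⟩ c2).symm
  push Not at c1 c2
  obtain ⟨s, s1, s2, s3⟩ := c1
  obtain ⟨t, t1, t2, t3⟩ := c2
  rw [dot_comm] at t3
  obtain ⟨⟨a1, a2⟩, a3⟩ := hal a s ⟨s1, s3⟩
  obtain ⟨⟨b1, b2⟩, b3⟩ := hbe b t ⟨t1, t3⟩
  have b4 : a < X (be b) := t2.trans_le (hX b3)
  rcases le_or_gt (al a) (be b) with g | g
  · exact h.ap lx ly a1 (hX g) (hY g) b1 a2 b2 (p3 a).1 (p3 a).2 (p5 b).1 (p5 b).2
  obtain ⟨m1, m2⟩ := ham a _ g
  rcases m2.eq_or_lt with m3 | m3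
  · exact h.common (hD _) b4 b1 (m3 ▸ p4 a) (p5 b)
  have n1 : a < X (am a) := b4.trans_le (hX m2)
  have n2 : Y (am a) < b := (hY (m1.le.trans a3)).trans_lt s2
  obtain ⟨c, d1, d2, d3, d4⟩ := hD (am a)
  exact (not_both (h.xyy _ n2) (h.xxy _ n1) (d3 a) d1 (d4 b) d2
    (not_le.1 fun hc => absurd (hal a _ ⟨n1, hc⟩).2 (not_le.2 m1))
    (not_le.1 fun hc => absurd (hbe b _ ⟨n2, hc⟩).2 (not_le.2 m3))).elim

/-- All pairs between two chains. -/
theorem Cfg.pair [Fintype A] [Fintype B] (h : Cfg e x y) (hx : ∀ i, x i ∈ P)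
    (hy : ∀ i, y i ∈ P) : Pay P (37 * (Fintype.card A + Fintype.card B)) fun E =>
      Lk x E → Lk y E → ∀ a b, Conn E (x a) (y b) := by
  classical
  rcases isEmpty_or_nonempty A with hA | hA
  · exact .triv fun _ _ _ a => isEmptyElim a
  rcases isEmpty_or_nonempty B with hB | hB
  · exact .triv fun _ _ _ _ b => isEmptyElim b
  obtain ⟨R, D, r1, r2, r3, r4⟩ := h.ladder
  have pD := Pay.fin D (fun d => x d.1) (fun d => y d.2) (fun _ => hx _) fun _ => hy _
  rcases R.eq_empty_or_nonempty with rfl | hR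
  · refine pD.imp (by omega) fun E hE _ _ a b => .direct (hE (a, b) ?_)
    simpa using r4 a b
  let : LinearOrder R :=
    { Subtype.partialOrder _ with
      le_total := fun r s => r2 r.1 r.2 s.1 s.2
      toDecidableLE := Classical.decRel _ }
  have : Nonempty R := hR.to_subtype
  have mX : Monotone fun r : R => r.1.1 := fun _ _ h => h.1
  have mY : Monotone fun r : R => r.1.2 := fun _ _ h => h.2
  refine ((pD.and (h.half hx hy mX mY fun r => r1 r.1 r.2)).and
    (h.mir.half hy hx mY mX fun r => (r1 r.1 r.2).swap)).imp (by omega) ?_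
  rintro E ⟨⟨p1, p2⟩, p3⟩ lx ly a b
  rcases r4 a b with g | ⟨r, hr, g | g⟩
  · exact .direct (p1 _ g)
  · exact p2 lx ly a b ⟨⟨r, hr⟩, g⟩
  · exact (p3 ly lx b a ⟨⟨r, hr⟩, g.symm⟩).symm

/-- Pairs on one chain. -/
theorem Cfg.same [Finite A] (h : Cfg e x y) {E : Finset (Pt × Pt)} (hx : Lk x E)
    (inj : Function.Injective x) (a b : A) : Conn E (x a) (x b) := by
  wlog hab : a < b generalizing a b
  · rcases (not_lt.1 hab).eq_or_lt with rfl | h1
    · exact .direct (Or.inl rfl)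
    · exact (this b a h1).symm
  obtain ⟨i, hi, hib⟩ := exists_covBy_le_of_lt hab
  exact ⟨e, x i - x a, h.he, sub_ne_zero.2 fun g => hi.ne' (inj g),
    .head (step_self (hx a i hi)) (h.walk_x hx hi.lt hib)⟩

end Pool.Agent.Lib.MP_9a669f_co.Cv
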