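import Mathlib
import Pool.Agent.Lib.MP_9a669f_co.CvPair

/-! Points in convex position have angle-monotone graphs with linearly many edges. -/

namespace Pool.Agent.Lib.MP_9a669f_co.Cv

theorem ne_mono {α β dx dy : ℝ} (hα : 0 ≤ α) (hβ : 0 ≤ β) (h : α * dx + β * dy < 0)
    (hx : 0 ≤ dx) : dy < 0 := by
  by_contra hc
  nlinarith [mul_nonneg hα hx, mul_nonneg hβ (not_lt.1 hc)]

theorem prod_lt {α β s t s' t' : ℝ} (hα : 0 < α) (hβ : 0 < β) (hs : 0 ≤ s') (ht : 0 ≤ t)
    (h1 : β * t < α * s) (h2 : α * s' < β * t') : t * s' < s * t' := by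
  have := mul_lt_mul'' h1 h2 (mul_nonneg hβ.le ht) (mul_nonneg hα.le hs)
  have h3 : α * β * (t * s') < α * β * (s * t') := by nlinarith
  exact lt_of_mul_lt_mul_left h3 (mul_pos hα hβ).le

/-- The north-east chain: a point on the outer side of a chord lies on the chain, between the
ends of the chord. -/
theorem ne_key {p1 p2 q1 q2 r1 r2 a b c d f g : ℝ} (ha : 0 ≤ a) (hb : 0 ≤ b) (hc : 0 ≤ c)
    (hd : 0 ≤ d) (pq : a * (q1 - p1) + b * (q2 - p2) < 0) (pr : a * (r1 - p1) + b * (r2 - p2) < 0)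
    (qp : c * (p1 - q1) + d * (p2 - q2) < 0) (qr : c * (r1 - q1) + d * (r2 - q2) < 0)
    (rp : f * (p1 - r1) + g * (p2 - r2) < 0) (rq : f * (q1 - r1) + g * (q2 - r2) < 0)
    (h : q1 < p1) (o : (q1 - p1) * (r2 - p2) - (q2 - p2) * (r1 - p1) ≤ 0) :
    0 < f ∧ 0 < g ∧ q1 < r1 ∧ r1 < p1 := by
  have h2 : p2 - q2 < 0 := ne_mono hc hd qp (by linarith)
  have a1 : r1 < p1 := by
    by_contra hn
    have hn' : 0 ≤ r1 - p1 := by linarith
    have b1 := ne_mono ha hb pr hn'
    have a0 : 0 < a := by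
      by_contra h0
      have : a = 0 := le_antisymm (not_lt.1 h0) ha
      subst this
      nlinarith [mul_nonneg hb (show 0 ≤ q2 - p2 by linarith)]
    have b0 : 0 < b := by
      by_contra h0
      have : b = 0 := le_antisymm (not_lt.1 h0) hb
      subst this
      nlinarith [mul_nonneg ha hn']
    have := prod_lt (s := p1 - q1) (t := q2 - p2) (s' := r1 - p1) (t' := p2 - r2) a0 b0 hn'
      (by linarith) (by linarith) (by linarith)
    nlinarith
  have a2 : r2 < q2 := by
    by_contra hn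
    have hn' : 0 ≤ r2 - q2 := by linarith
    have b1 : r1 - q1 < 0 := ne_mono hd hc (by linarith) hn'
    have c0 : 0 < c := by
      by_contra h0
      have : c = 0 := le_antisymm (not_lt.1 h0) hc
      subst this
      nlinarith [mul_nonneg hd hn']
    have d0 : 0 < d := by
      by_contra h0
      have : d = 0 := le_antisymm (not_lt.1 h0) hd
      subst this
      nlinarith [mul_nonneg hc (show 0 ≤ p1 - q1 by linarith)]
    have := prod_lt (s := q1 - r1) (t := r2 - q2) (s' := p1 - q1) (t' := q2 - p2) c0 d0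
      (by linarith) hn' (by linarith) (by linarith)
    nlinarith
  have a3 : q1 < r1 := by
    by_contra hn
    nlinarith [mul_pos (show 0 < p1 - q1 by linarith) (show 0 < q2 - r2 by linarith),
      mul_nonneg (show 0 ≤ q2 - p2 by linarith) (show 0 ≤ q1 - r1 by linarith)]
  have a4 : p2 < r2 := by
    by_contra hn
    nlinarith [mul_nonneg (show 0 ≤ p1 - q1 by linarith) (show 0 ≤ p2 - r2 by linarith),
      mul_pos (show 0 < q2 - p2 by linarith) (show 0 < p1 - r1 by linarith)]
  have f0 : 0 < f := by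
    by_contra hn
    have hn' : 0 ≤ -f := by linarith
    have g0 : 0 < -g := by
      by_contra h0
      nlinarith [mul_nonneg hn' (show 0 ≤ r1 - q1 by linarith),
        mul_nonneg (show 0 ≤ g by linarith) (show 0 ≤ q2 - r2 by linarith)]
    have f1 : 0 < -f := by
      by_contra h0
      have : f = 0 := by linarith
      subst this
      nlinarith [mul_pos g0 (show 0 < r2 - p2 by linarith)]
    have := prod_lt (s := p1 - r1) (t := r2 - p2) (s' := r1 - q1) (t' := q2 - r2) f1 g0
      (by linarith) (by linarith) (by linarith) (by linarith)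
    nlinarith
  refine ⟨f0, ?_, a3, a1⟩
  by_contra hn
  nlinarith [mul_pos f0 (show 0 < p1 - r1 by linarith),
    mul_nonneg (show 0 ≤ -g by linarith) (show 0 ≤ r2 - p2 by linarith)]

/-- The sign attached to a Boolean. -/
def sg (b : Bool) : ℝ := if b then 1 else -1

/-- An outer normal at every point. -/
def Nrm (P : Finset Pt) (n : Pt → Pt) : Prop := ∀ p ∈ P, ∀ q ∈ P, q ≠ p → dot (n p) (q - p) < 0

theorem exists_nrm {P : Finset Pt} (h : ConvexIndependent ℝ (Subtype.val : P → Pt)) :
    ∃ n, Nrm P n := by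
  have : ∀ p : Pt, ∃ v : Pt, p ∈ P → ∀ q ∈ P, q ≠ p → dot v (q - p) < 0 := by
    intro p
    by_cases hp : p ∈ P
    swap
    · exact ⟨0, fun h => (hp h).elim⟩
    obtain ⟨f, u, h1, h2⟩ := geometric_hahn_banach_point_closed (convex_convexHull ℝ _)
      (((P.finite_toSet.subset Set.sdiff_subset).isCompact_convexHull ℝ).isClosed)
      ((convexIndependent_set_iff_notMem_convexHull_sdiff (s := (P : Set Pt))).1 h p hp)
    refine ⟨(-f (1, 0), -f (0, 1)), fun _ q hq hne => ?_⟩
    have h3 := h1.trans (h2 q (subset_convexHull ℝ _ ⟨hq, hne⟩))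
    have h4 : ∀ z : Pt, f z = z.1 * f (1, 0) + z.2 * f (0, 1) := by
      intro z
      rw [← smul_eq_mul, ← smul_eq_mul, ← map_smul, ← map_smul, ← map_add]
      exact congrArg f (by simp)
    rw [h4 p, h4 q] at h3
    simp only [dot, Prod.fst_sub, Prod.snd_sub]
    linarith
  choose n hn using this
  exact ⟨n, fun p hp => hn p hp⟩

/-- The quadrant of a normal vector. -/
noncomputable def cls (v : Pt) : Bool × Bool := (decide (0 ≤ v.1), decide (0 ≤ v.2))

theorem cls_sign {v : Pt} {c : Bool × Bool} (h : cls v = c) :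
    0 ≤ sg c.1 * v.1 ∧ 0 ≤ sg c.2 * v.2 := by
  subst h
  constructor
  · by_cases h : 0 ≤ v.1
    · simp [cls, sg, h]
    · simp [cls, sg, h, (not_le.1 h).le]
  · by_cases h : 0 ≤ v.2
    · simp [cls, sg, h]
    · simp [cls, sg, h, (not_le.1 h).le]

theorem cls_of_sign {v : Pt} {c : Bool × Bool} (h1 : 0 < sg c.1 * v.1) (h2 : 0 < sg c.2 * v.2) :
    cls v = c := by
  obtain ⟨s, t⟩ := c
  cases s <;> cases t <;> simp [sg] at h1 h2 <;> simp [cls, h1, h2, h1.le, h2.le]

/-- The position along the boundary inside one class. -/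
def key (c : Bool × Bool) (p : Pt) : ℝ := -sg c.2 * p.1

variable {P : Finset Pt} {n : Pt → Pt}

theorem Nrm.between (h : Nrm P n) {c : Bool × Bool} {p q r : Pt} (hp : p ∈ P) (hq : q ∈ P)
    (hr : r ∈ P) (cp : cls (n p) = c) (cq : cls (n q) = c) (hk : key c p < key c q) (rp : r ≠ p)
    (rq : r ≠ q) (o : ori 1 p q r ≤ 0) :
    cls (n r) = c ∧ key c p < key c r ∧ key c r < key c q := by
  have pq : p ≠ q := fun g => by rw [g] at hk; exact lt_irrefl _ hk
  have a1 := h p hp q hq pq.symm
  have a2 := h p hp r hr rp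
  have a3 := h q hq p hp pq
  have a4 := h q hq r hr rq
  have a5 := h r hr p hp rp.symm
  have a6 := h r hr q hq rq.symm
  obtain ⟨b1, b2⟩ := cls_sign cp
  obtain ⟨b3, b4⟩ := cls_sign cq
  suffices g : 0 < sg c.1 * (n r).1 ∧ 0 < sg c.2 * (n r).2 ∧ key c p < key c r ∧
      key c r < key c q from ⟨cls_of_sign g.1 g.2.1, g.2.2⟩
  obtain ⟨s, t⟩ := c
  simp only [dot, ori, crs, key, Prod.fst_sub, Prod.snd_sub] at *
  cases s <;> cases t <;>
    simp only [sg, if_true, if_false, Bool.false_eq_true] at b1 b2 b3 b4 hk ⊢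
  · have := ne_key (p1 := -p.1) (p2 := -p.2) (q1 := -q.1) (q2 := -q.2) (r1 := -r.1) (r2 := -r.2)
      (f := -(n r).1) (g := -(n r).2) b1 b2 b3 b4 (by linarith) (by linarith) (by linarith)
      (by linarith) (by linarith) (by linarith) (by linarith) (by linarith)
    exact ⟨by linarith [this.1], by linarith [this.2.1], by linarith [this.2.2.2],
      by linarith [this.2.2.1]⟩
  · have := ne_key (p1 := -q.1) (p2 := q.2) (q1 := -p.1) (q2 := p.2) (r1 := -r.1) (r2 := r.2)
      (f := -(n r).1) (g := (n r).2) b3 b4 b1 b2 (by linarith) (by linarith) (by linarith)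
      (by linarith) (by linarith) (by linarith) (by linarith) (by linarith)
    exact ⟨by linarith [this.1], by linarith [this.2.1], by linarith [this.2.2.1],
      by linarith [this.2.2.2]⟩
  · have := ne_key (p1 := q.1) (p2 := -q.2) (q1 := p.1) (q2 := -p.2) (r1 := r.1) (r2 := -r.2)
      (f := (n r).1) (g := -(n r).2) b3 b4 b1 b2 (by linarith) (by linarith) (by linarith)
      (by linarith) (by linarith) (by linarith) (by linarith) (by linarith)
    exact ⟨by linarith [this.1], by linarith [this.2.1], by linarith [this.2.2.1],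
      by linarith [this.2.2.2]⟩
  · have := ne_key (p1 := p.1) (p2 := p.2) (q1 := q.1) (q2 := q.2) (r1 := r.1) (r2 := r.2)
      (f := (n r).1) (g := (n r).2) b1 b2 b3 b4 (by linarith) (by linarith) (by linarith)
      (by linarith) (by linarith) (by linarith) (by linarith) (by linarith)
    exact ⟨by linarith [this.1], by linarith [this.2.1], by linarith [this.2.2.2],
      by linarith [this.2.2.1]⟩

theorem Nrm.step (h : Nrm P n) {c : Bool × Bool} {p q : Pt} (hp : p ∈ P) (hq : q ∈ P)
    (cp : cls (n p) = c) (cq : cls (n q) = c) (hk : key c p ≤ key c q) (pq : p ≠ q) :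
    0 < sg c.1 * (q.2 - p.2) := by
  have a1 := h p hp q hq pq.symm
  have a3 := h q hq p hp pq
  obtain ⟨b1, b2⟩ := cls_sign cp
  obtain ⟨b3, b4⟩ := cls_sign cq
  obtain ⟨s, t⟩ := c
  simp only [dot, key, Prod.fst_sub, Prod.snd_sub] at *
  cases s <;> cases t <;>
    simp only [sg, if_true, if_false, Bool.false_eq_true] at b1 b2 b3 b4 hk ⊢
  · linarith [ne_mono (dx := q.1 - p.1) (dy := q.2 - p.2) b3 b4 (by linarith) (by linarith)]
  · linarith [ne_mono (dx := p.1 - q.1) (dy := q.2 - p.2) b1 b2 (by linarith) (by linarith)]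
  · linarith [ne_mono (dx := q.1 - p.1) (dy := p.2 - q.2) b1 b2 (by linarith) (by linarith)]
  · linarith [ne_mono (dx := p.1 - q.1) (dy := p.2 - q.2) b3 b4 (by linarith) (by linarith)]

theorem sg_sq (b : Bool) : sg b * sg b = 1 := by cases b <;> simp [sg]

/-- The points of one class. -/
def Cl (P : Finset Pt) (n : Pt → Pt) (c : Bool × Bool) : Type :=
  {p // p ∈ P.filter fun p => cls (n p) = c}

noncomputable instance (P : Finset Pt) (n : Pt → Pt) (c : Bool × Bool) : Fintype (Cl P n c) :=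
  Finset.Subtype.fintype _

theorem Cl.mem {c : Bool × Bool} (p : Cl P n c) : p.1 ∈ P := (Finset.mem_filter.1 p.2).1

theorem Cl.cls {c : Bool × Bool} (p : Cl P n c) : cls (n p.1) = c := (Finset.mem_filter.1 p.2).2

theorem Nrm.key_inj (h : Nrm P n) (c : Bool × Bool) :
    Function.Injective fun p : Cl P n c => key c p.1 := by
  intro p q hk
  by_contra hne
  have pq : p.1 ≠ q.1 := fun g => hne (Subtype.ext g)
  have a := h.step p.mem q.mem p.cls q.cls hk.le pq
  have b := h.step q.mem p.mem q.cls p.cls hk.ge pq.symm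
  linarith

/-- The counterclockwise order on one class. -/
@[reducible] noncomputable def Nrm.ord (h : Nrm P n) (c : Bool × Bool) : LinearOrder (Cl P n c) :=
  LinearOrder.lift' _ (h.key_inj c)

theorem Nrm.ccw3 (h : Nrm P n) {c : Bool × Bool} {p q r : Cl P n c} (h1 : key c p.1 < key c q.1)
    (h2 : key c q.1 < key c r.1) : 0 < ori 1 p.1 q.1 r.1 := by
  by_contra hc
  have := h.between p.mem q.mem r.mem p.cls q.cls h1
    (fun g => by rw [g] at h2; exact lt_asymm h1 h2) (fun g => by rw [g] at h2; exact lt_irrefl _ h2)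
    (not_lt.1 hc)
  exact lt_asymm h2 this.2.2

theorem Nrm.ccw2 (h : Nrm P n) {c d : Bool × Bool} (hcd : d ≠ c) {p q : Cl P n c} (r : Cl P n d)
    (h1 : key c p.1 < key c q.1) : 0 < ori 1 p.1 q.1 r.1 := by
  by_contra hc
  have := h.between p.mem q.mem r.mem p.cls q.cls h1
    (fun g => hcd (by rw [← r.cls, g, p.cls])) (fun g => hcd (by rw [← r.cls, g, q.cls]))
    (not_lt.1 hc)
  exact hcd (r.cls.symm.trans this.1)

theorem Nrm.quad (h : Nrm P n) {c : Bool × Bool} {i j k l : Cl P n c}
    (h1 : key c i.1 ≤ key c j.1) (h2 : key c k.1 ≤ key c l.1) :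
    0 ≤ dot (j.1 - i.1) (l.1 - k.1) := by
  have a : ∀ p q : Cl P n c, key c p.1 ≤ key c q.1 → 0 ≤ sg c.1 * (q.1.2 - p.1.2) := by
    intro p q hk
    by_cases pq : p.1 = q.1
    · simp [pq]
    · exact (h.step p.mem q.mem p.cls q.cls hk pq).le
  have b1 := mul_nonneg (a i j h1) (a k l h2)
  have b2 := mul_nonneg (sub_nonneg.2 h1) (sub_nonneg.2 h2)
  simp only [dot, key, Prod.fst_sub, Prod.snd_sub] at b1 b2 ⊢
  have e1 := sg_sq c.1
  have e2 := sg_sq c.2
  have : (j.1.1 - i.1.1) * (l.1.1 - k.1.1) + (j.1.2 - i.1.2) * (l.1.2 - k.1.2) =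
      sg c.1 * (j.1.2 - i.1.2) * (sg c.1 * (l.1.2 - k.1.2)) +
      (-sg c.2 * j.1.1 - -sg c.2 * i.1.1) * (-sg c.2 * l.1.1 - -sg c.2 * k.1.1) := by
    linear_combination (-(j.1.2 - i.1.2) * (l.1.2 - k.1.2)) * e1 +
      (-(j.1.1 - i.1.1) * (l.1.1 - k.1.1)) * e2
  linarith

theorem Nrm.cfg (h : Nrm P n) {c d : Bool × Bool} (hcd : d ≠ c) :
    letI := h.ord c
    letI := h.ord d
    Cfg (A := Cl P n c) (B := (Cl P n d)ᵒᵈ) 1 Subtype.val Subtype.val := by
  letI := h.ord c
  letI := h.ord d
  exact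
    { he := one_mul _
      xxx := fun h1 h2 => h.ccw3 h1 h2
      xxy := fun k h1 => h.ccw2 hcd k h1
      xyy := fun i _ _ h1 => by rw [ori_cyc]; exact h.ccw2 hcd.symm i h1
      yyy := fun h1 h2 => h.ccw3 h2 h1
      qx := fun h1 h2 => h.quad h1 h2
      qy := fun h1 h2 => by rw [dot_flip]; exact h.quad h1 h2 }

theorem Nrm.pay (h : Nrm P n) :
    Pay P (112 * P.card) fun E => ∀ a ∈ P, ∀ b ∈ P, Conn E a b := by
  classical
  have hsum : ∑ c, Fintype.card (Cl P n c) = P.card := by
    rw [Finset.card_eq_sum_card_fiberwise (f := fun p => cls (n p)) (t := Finset.univ)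
      fun _ _ => Finset.mem_univ _]
    exact Finset.sum_congr rfl fun c _ => Fintype.card_coe _
  have p1 := Pay.all (P := P) Finset.univ _ _ fun c _ =>
    @pay_lk (Cl P n c) (h.ord c) Subtype.val P _ fun i => i.mem
  have pp : ∀ {c d : Bool × Bool} (hcd : d ≠ c), Pay P
      (37 * (Fintype.card (Cl P n c) + Fintype.card (Cl P n d))) fun E =>
      (∀ c ∈ Finset.univ, @Lk (Cl P n c) (h.ord c) Subtype.val E) →
      ∀ (a : Cl P n c) (b : Cl P n d), Conn E a.1 b.1 := by
    intro c d hcd
    letI := h.ord c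
    letI := h.ord d
    refine ((h.cfg hcd).pair (fun i => i.mem) fun i => Cl.mem i).imp
      (by rw [Fintype.card_orderDual]) fun E hE hl a b => hE (hl c (Finset.mem_univ _)) ?_ a b
    exact fun i j hij => (hl d (Finset.mem_univ _) j i hij.ofDual).symm
  rw [hsum] at p1
  simp only [Fintype.sum_prod_type, Fintype.sum_bool] at hsum
  refine (p1.and ((((pp (c := (true, true)) (d := (true, false)) (by decide)).and
    (pp (c := (true, true)) (d := (false, true)) (by decide))).and
    ((pp (c := (true, true)) (d := (false, false)) (by decide)).and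
    (pp (c := (true, false)) (d := (false, true)) (by decide)))).and
    ((pp (c := (true, false)) (d := (false, false)) (by decide)).and
    (pp (c := (false, true)) (d := (false, false)) (by decide))))).imp (by omega) ?_
  rintro E ⟨l, ⟨⟨q1, q2⟩, q3, q4⟩, q5, q6⟩ a ha b hb
  have same : ∀ (c d : Bool × Bool), d ≠ c → ∀ a b : Cl P n c, Conn E a.1 b.1 := by
    intro c d hcd a b
    letI := h.ord c
    letI := h.ord d
    exact (h.cfg hcd).same (l c (Finset.mem_univ _)) Subtype.val_injective a b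
  have all : ∀ (c d : Bool × Bool) (a : Cl P n c) (b : Cl P n d), Conn E a.1 b.1 := by
    rintro ⟨_ | _, _ | _⟩ ⟨_ | _, _ | _⟩ a b
    exacts [same _ (true, true) (by decide) a b, (q6 l b a).symm, (q5 l b a).symm,
      (q3 l b a).symm, q6 l a b, same _ (true, true) (by decide) a b, (q4 l b a).symm,
      (q2 l b a).symm, q5 l a b, q4 l a b, same _ (true, true) (by decide) a b, (q1 l b a).symm,
      q3 l a b, q2 l a b, q1 l a b, same _ (false, true) (by decide) a b]
  exact all _ _ ⟨a, Finset.mem_filter.2 ⟨ha, rfl⟩⟩ ⟨b, Finset.mem_filter.2 ⟨hb, rfl⟩⟩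

theorem convex_linear (P : Finset Pt) (h : ConvexIndependent ℝ (Subtype.val : P → Pt)) :
    ∃ G : SimpleGraph P, AngleMonotone (Real.pi / 2) P G ∧ G.edgeSet.ncard ≤ 112 * P.card := by
  obtain ⟨n, hn⟩ := exists_nrm h
  exact graph_of_pay hn.pay

end Pool.Agent.Lib.MP_9a669f_co.Cv
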