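import Mathlib
import Pool.Agent.Lib.MP_9a669f_co.Defs

-- part Pool.Agent.Lib.MP_9a669f_co.Delaunay
section

namespace Pool.Agent.Lib.MP_9a669f_co

open Finset

/-- Bar visibility: intervals at distinct heights have at most `3 n` visible pairs. -/
theorem bar_visibility {α : Type} [LinearOrder α] (U : Finset α) (I : α → Set ℝ)
    (hI : ∀ u, (I u).OrdConnected) (V : Finset (α × α))
    (hV : ∀ e ∈ V, e.1 ∈ U ∧ e.2 ∈ U ∧ e.1 < e.2 ∧
      ∃ x, x ∈ I e.1 ∧ x ∈ I e.2 ∧ ∀ w ∈ U, e.1 < w → w < e.2 → x ∉ I w) :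
    V.card ≤ 3 * U.card := by
  classical
  let W : α × α → ℝ → Prop := fun e x =>
    x ∈ I e.1 ∧ x ∈ I e.2 ∧ ∀ w ∈ U, e.1 < w → w < e.2 → x ∉ I w
  have h0 : ∀ e : α × α, ∃ x, e ∈ V → W e x := by
    intro e
    by_cases he : e ∈ V
    · obtain ⟨x, hx⟩ := (hV e he).2.2.2
      exact ⟨x, fun _ => hx⟩
    · exact ⟨0, fun h => (he h).elim⟩
  choose x₀ hx₀ using h0
  let X : Finset ℝ := V.image x₀
  have h1 : ∀ e : α × α, ∃ x, e ∈ V → x ∈ X ∧ W e x ∧ ∀ y ∈ X, y < x → ¬ W e y := by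
    intro e
    by_cases he : e ∈ V
    · have hne : (X.filter (W e)).Nonempty :=
        ⟨x₀ e, mem_filter.2 ⟨mem_image_of_mem _ he, hx₀ e he⟩⟩
      have hm := mem_filter.1 (min'_mem _ hne)
      refine ⟨_, fun _ => ⟨hm.1, hm.2, fun y hy hlt hW => ?_⟩⟩
      exact absurd (min'_le _ y (mem_filter.2 ⟨hy, hW⟩)) (not_le.2 hlt)
    · exact ⟨0, fun h => (he h).elim⟩
  choose x hx using h1
  let r : α × α → α × Fin 3 → Prop := fun e k =>
    (k.2 = 0 ∧ k.1 = e.1 ∧ ∀ y ∈ X, y < x e → y ∉ I e.1) ∨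
    (k.2 = 1 ∧ k.1 = e.2 ∧ ∀ y ∈ X, y < x e → y ∉ I e.2) ∨
    (k.2 = 2 ∧ e.1 < k.1 ∧ k.1 < e.2 ∧
      ∃ y ∈ I k.1, y < x e ∧ ∀ z ∈ X, z < x e → z ≤ y)
  have hcard : (U ×ˢ (univ : Finset (Fin 3))).card = 3 * U.card := by simp [mul_comm]
  rw [← hcard]
  refine card_le_card_of_forall_subsingleton r ?_ ?_
  · intro e he
    obtain ⟨hu, hv, huv, -⟩ := hV e he
    obtain ⟨hX, hW, hmin⟩ := hx e he
    by_cases c1 : ∀ y ∈ X, y < x e → y ∉ I e.1
    · exact ⟨(e.1, 0), by simp [hu], Or.inl ⟨rfl, rfl, c1⟩⟩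
    by_cases c2 : ∀ y ∈ X, y < x e → y ∉ I e.2
    · exact ⟨(e.2, 1), by simp [hv], Or.inr (Or.inl ⟨rfl, rfl, c2⟩)⟩
    push Not at c1 c2
    obtain ⟨y1, hy1, hy1', hy1''⟩ := c1
    obtain ⟨y2, hy2, hy2', hy2''⟩ := c2
    have hne : (X.filter (· < x e)).Nonempty := ⟨y1, mem_filter.2 ⟨hy1, hy1'⟩⟩
    have hm := mem_filter.1 (max'_mem _ hne)
    have hmax : ∀ z ∈ X, z < x e → z ≤ (X.filter (· < x e)).max' hne :=
      fun z hz hz' => le_max' _ z (mem_filter.2 ⟨hz, hz'⟩)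
    have h2 := hmin _ hm.1 hm.2
    have h3 := (hI e.1).out hy1'' hW.1 ⟨hmax y1 hy1 hy1', hm.2.le⟩
    have h4 := (hI e.2).out hy2'' hW.2.1 ⟨hmax y2 hy2 hy2', hm.2.le⟩
    simp only [W, not_and, not_forall, not_not] at h2
    obtain ⟨w, hw, hw1, hw2, hw3⟩ := h2 h3 h4
    exact ⟨(w, 2), by simp [hw], Or.inr (Or.inr ⟨rfl, hw1, hw2, _, hw3, hm.2, hmax⟩)⟩
  · rintro ⟨w, k⟩ hk e ⟨he, hr⟩ e' ⟨he', hr'⟩
    have hw : w ∈ U := (mem_product.1 hk).1
    obtain ⟨hu, hv, huv, -⟩ := hV e he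
    obtain ⟨hX, hW, -⟩ := hx e he
    obtain ⟨hu', hv', huv', -⟩ := hV e' he'
    obtain ⟨hX', hW', -⟩ := hx e' he'
    rcases hr with ⟨h1, h2, h3⟩ | ⟨h1, h2, h3⟩ | ⟨h1, h2, h3, y, h4, h5, h6⟩ <;>
      rcases hr' with ⟨h1', h2', h3'⟩ | ⟨h1', h2', h3'⟩ | ⟨h1', h2', h3', y', h4', h5', h6'⟩ <;>
      try (exact absurd (h1.symm.trans h1') (by decide))
    · have e1 : e.1 = e'.1 := h2.symm.trans h2'
      have ex : x e = x e' := le_antisymm
        (not_lt.1 fun h => h3 _ hX' h (e1 ▸ hW'.1)) (not_lt.1 fun h => h3' _ hX h (e1 ▸ hW.1))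
      refine Prod.ext e1 (le_antisymm (not_lt.1 fun h => ?_) (not_lt.1 fun h => ?_))
      · exact hW.2.2 _ hv' (e1 ▸ huv') h (ex ▸ hW'.2.1)
      · exact hW'.2.2 _ hv (e1 ▸ huv) h (ex ▸ hW.2.1)
    · have e2 : e.2 = e'.2 := h2.symm.trans h2'
      have ex : x e = x e' := le_antisymm
        (not_lt.1 fun h => h3 _ hX' h (e2 ▸ hW'.2.1)) (not_lt.1 fun h => h3' _ hX h (e2 ▸ hW.2.1))
      refine Prod.ext (le_antisymm (not_lt.1 fun h => ?_) (not_lt.1 fun h => ?_)) e2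
      · exact hW'.2.2 _ hu h (e2 ▸ huv) (ex ▸ hW.1)
      · exact hW.2.2 _ hu' h (e2 ▸ huv') (ex ▸ hW'.1)
    · have ex : x e = x e' := le_antisymm
        (not_lt.1 fun h => hW'.2.2 w hw h2' h3' ((hI w).out h4' h4 ⟨h5'.le, h6 _ hX' h⟩))
        (not_lt.1 fun h => hW.2.2 w hw h2 h3 ((hI w).out h4 h4' ⟨h5.le, h6' _ hX h⟩))
      refine Prod.ext (le_antisymm (not_lt.1 fun h => ?_) (not_lt.1 fun h => ?_))
        (le_antisymm (not_lt.1 fun h => ?_) (not_lt.1 fun h => ?_))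
      · exact hW'.2.2 _ hu h (h2.trans h3') (ex ▸ hW.1)
      · exact hW.2.2 _ hu' h (h2'.trans h3) (ex ▸ hW'.1)
      · exact hW.2.2 _ hv' (h2.trans h3') h (ex ▸ hW'.2.1)
      · exact hW'.2.2 _ hv (h2'.trans h3) h (ex ▸ hW.2.1)

/-- Squared Euclidean distance. -/
def sq2 (c p : ℝ × ℝ) : ℝ := (c.1 - p.1) ^ 2 + (c.2 - p.2) ^ 2

/-- `u v` is a strict Delaunay edge of `U`. -/
def Del (U : Finset (ℝ × ℝ)) (u v : ℝ × ℝ) : Prop :=
  ∃ c, sq2 c u = sq2 c v ∧ ∀ w ∈ U, w ≠ u → w ≠ v → sq2 c u < sq2 c w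

theorem Del.symm {U : Finset (ℝ × ℝ)} {u v : ℝ × ℝ} (h : Del U u v) : Del U v u := by
  obtain ⟨c, h1, h2⟩ := h
  exact ⟨c, h1.symm, fun w hw h3 h4 => h1 ▸ h2 w hw h4 h3⟩

open Classical in
theorem del_card (U : Finset (ℝ × ℝ)) :
    ((U ×ˢ U).filter (fun e => e.1 ≠ e.2 ∧ Del U e.1 e.2)).card ≤ 6 * U.card := by
  let key : ℝ × ℝ → ℝ ×ₗ ℝ := fun p => toLex (p.2, p.1)
  have hkey : Function.Injective key := by
    intro p q h
    have := toLex.injective h
    simp only [Prod.mk.injEq] at this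
    exact Prod.ext this.2 this.1
  have hle : ∀ p q, key p < key q → p.2 ≤ q.2 := by
    intro p q h
    rcases Prod.Lex.toLex_lt_toLex.1 h with h | h
    exacts [h.le, h.1.le]
  let I : ℝ × ℝ → Set ℝ := fun p => {x | ∃ y, ∀ q ∈ U, sq2 (x, y) p ≤ sq2 (x, y) q}
  have hI : ∀ p, (I p).OrdConnected := by
    intro p
    refine Convex.ordConnected ?_
    rintro x1 ⟨y1, h1⟩ x2 ⟨y2, h2⟩ a b ha hb hab
    refine ⟨a * y1 + b * y2, fun q hq => ?_⟩
    have h3 := mul_le_mul_of_nonneg_left (h1 q hq) ha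
    have h4 := mul_le_mul_of_nonneg_left (h2 q hq) hb
    obtain rfl : b = 1 - a := by linarith
    simp only [sq2, smul_eq_mul] at h3 h4 ⊢
    nlinarith
  have main : ((U ×ˢ U).filter (fun e => key e.1 < key e.2 ∧ Del U e.1 e.2)).card ≤
      3 * U.card := by
    let this : LinearOrder (ℝ × ℝ) := LinearOrder.lift' key hkey
    refine @bar_visibility (ℝ × ℝ) this U I hI _ ?_
    rintro ⟨u, v⟩ he
    simp only [mem_filter, mem_product] at he
    obtain ⟨⟨hu, hv⟩, huv, c, hc1, hc2⟩ := he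
    have hall : ∀ q ∈ U, sq2 c u ≤ sq2 c q := by
      intro q hq
      by_cases h1 : q = u
      · rw [h1]
      by_cases h2 : q = v
      · rw [h2, hc1]
      exact (hc2 q hq h1 h2).le
    refine ⟨hu, hv, huv, c.1, ⟨c.2, hall⟩, ⟨c.2, fun q hq => hc1 ▸ hall q hq⟩, ?_⟩
    rintro w hw (h1 : key u < key w) (h2 : key w < key v) ⟨y, hy⟩
    have h3 := hc2 w hw (fun h => h1.ne' (congrArg key h)) (fun h => h2.ne (congrArg key h))
    have h4 := hy u hu
    have h5 := hy v hv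
    have h6 := hle _ _ h1
    have h7 := hle _ _ h2
    simp only [sq2] at hc1 h3 h4 h5
    rcases le_total y c.2 with h | h
    · nlinarith [mul_nonneg (sub_nonneg.2 h) (sub_nonneg.2 h6)]
    · nlinarith [mul_nonneg (sub_nonneg.2 h) (sub_nonneg.2 h7)]
  have hsub : (U ×ˢ U).filter (fun e => e.1 ≠ e.2 ∧ Del U e.1 e.2) ⊆
      (U ×ˢ U).filter (fun e => key e.1 < key e.2 ∧ Del U e.1 e.2) ∪
      ((U ×ˢ U).filter (fun e => key e.1 < key e.2 ∧ Del U e.1 e.2)).image Prod.swap := by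
    rintro ⟨u, v⟩ he
    simp only [mem_filter, mem_product] at he
    obtain ⟨⟨hu, hv⟩, huv, hD⟩ := he
    rcases lt_or_gt_of_ne (hkey.ne huv) with h | h
    · exact mem_union_left _ (mem_filter.2 ⟨mem_product.2 ⟨hu, hv⟩, h, hD⟩)
    · exact mem_union_right _ (mem_image.2
        ⟨(v, u), mem_filter.2 ⟨mem_product.2 ⟨hv, hu⟩, h, hD.symm⟩, rfl⟩)
  have := (card_le_card hsub).trans ((card_union_le _ _).trans
    (Nat.add_le_add_left card_image_le _))
  omega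

end Pool.Agent.Lib.MP_9a669f_co
end

-- part Pool.Agent.Lib.MP_9a669f_co.Main
section

namespace Pool.Agent.Lib.MP_9a669f_co

open Finset

/-- `w` lies in the closed disc with diameter `s t`. -/
def InD (s t w : ℝ × ℝ) : Prop :=
  0 ≤ (w.1 - s.1) * (t.1 - w.1) + (w.2 - s.2) * (t.2 - w.2)

theorem InD.symm {s t w : ℝ × ℝ} (h : InD s t w) : InD t s w := by
  unfold InD at *
  nlinarith

theorem inD_left (s t : ℝ × ℝ) : InD s t s := by simp [InD]

theorem sq_pos_of_ne {s m : ℝ × ℝ} (h : s ≠ m) : 0 < (m.1 - s.1) ^ 2 + (m.2 - s.2) ^ 2 := by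
  by_contra hc
  have h1 : m.1 - s.1 = 0 := by nlinarith [sq_nonneg (m.1 - s.1), sq_nonneg (m.2 - s.2)]
  have h2 : m.2 - s.2 = 0 := by nlinarith [sq_nonneg (m.1 - s.1), sq_nonneg (m.2 - s.2)]
  exact h (Prod.ext (by linarith) (by linarith))

theorem del_of_inD {T : Finset (ℝ × ℝ)} {s t m : ℝ × ℝ} (hm : InD s t m) (hsm : s ≠ m)
    (hT : ∀ w ∈ T, ¬ InD s t w) : Del (insert s (insert m T)) s m := by
  have hA := sq_pos_of_ne hsm
  set A := (m.1 - s.1) ^ 2 + (m.2 - s.2) ^ 2 with hAdef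
  set B := (t.1 - s.1) * (m.1 - s.1) + (t.2 - s.2) * (m.2 - s.2) with hBdef
  have hAB : A ≤ B := by
    unfold InD at hm
    nlinarith
  have hB : 0 < B := hA.trans_le hAB
  obtain ⟨l, hl⟩ : ∃ l, l = A / B := ⟨_, rfl⟩
  have hl0 : 0 < l := hl ▸ div_pos hA hB
  have hl1 : l ≤ 1 := hl ▸ (div_le_one hB).2 hAB
  have hlB : l * B = A := by rw [hl]; field_simp
  refine ⟨(s.1 + l * (t.1 - s.1) / 2, s.2 + l * (t.2 - s.2) / 2), ?_, ?_⟩
  · simp only [sq2]
    nlinarith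
  · intro w hw h1 h2
    have hwT : w ∈ T := by simpa [h1, h2] using hw
    have h3 := hT w hwT
    have h4 := sq_pos_of_ne (Ne.symm h1)
    simp only [InD, not_le] at h3
    simp only [sq2]
    nlinarith [mul_pos hl0 (neg_pos.2 h3), mul_nonneg (sub_nonneg.2 hl1) h4.le]

/-- `E` serves all pairs whose diametral disc avoids `T`. -/
def Good (P T : Finset (ℝ × ℝ)) (E : Finset ((ℝ × ℝ) × (ℝ × ℝ))) : Prop :=
  ∀ s ∈ P, ∀ t ∈ P, (∀ w ∈ T, ¬ InD s t w) →
    ∃ m ∈ P, InD s t m ∧ (s = m ∨ (s, m) ∈ E) ∧ (t = m ∨ (t, m) ∈ E)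

open Classical in
noncomputable def cost (P T : Finset (ℝ × ℝ)) (m : ℝ × ℝ) : Finset (ℝ × ℝ) :=
  (P \ insert m T).filter (fun s => Del (insert s (insert m T)) s m)

theorem good_step {P T : Finset (ℝ × ℝ)} {E : Finset ((ℝ × ℝ) × (ℝ × ℝ))} {m : ℝ × ℝ}
    (hm : m ∈ P) (h : Good P (insert m T) E) :
    Good P T (E ∪ (cost P T m).image (fun s => (s, m))) := by
  intro s hs t ht hT
  by_cases hD : InD s t m
  · have key : ∀ s t, s ∈ P → InD s t m → (∀ w ∈ T, ¬ InD s t w) →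
        s = m ∨ (s, m) ∈ E ∪ (cost P T m).image (fun s => (s, m)) := by
      intro s t hs hD hT
      by_cases hsm : s = m
      · exact Or.inl hsm
      refine Or.inr (mem_union_right _ (mem_image.2 ⟨s, ?_, rfl⟩))
      simp only [cost, mem_filter, mem_sdiff, mem_insert, not_or]
      exact ⟨⟨hs, hsm, fun h => hT s h (inD_left s t)⟩, del_of_inD hD hsm hT⟩
    exact ⟨m, hm, hD, key s t hs hD hT, key t s ht hD.symm (fun w hw h => hT w hw h.symm)⟩
  · obtain ⟨m', h1, h2, h3, h4⟩ := h s hs t ht (by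
      intro w hw
      rcases mem_insert.1 hw with rfl | hw
      exacts [hD, hT w hw])
    exact ⟨m', h1, h2, h3.imp_right (mem_union_left _), h4.imp_right (mem_union_left _)⟩

noncomputable def val (P T : Finset (ℝ × ℝ)) : ℕ := sInf {k | ∃ E, Good P T E ∧ E.card = k}

theorem exists_val (P T : Finset (ℝ × ℝ)) : ∃ E, Good P T E ∧ E.card = val P T :=
  Nat.sInf_mem (s := {k | ∃ E, Good P T E ∧ E.card = k})
    ⟨_, P ×ˢ P, fun s hs t ht _ => ⟨s, hs, inD_left s t, Or.inl rfl,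
      Or.inr (mem_product.2 ⟨ht, hs⟩)⟩, rfl⟩

theorem val_self (P : Finset (ℝ × ℝ)) : val P P = 0 :=
  Nat.le_zero.1 (Nat.sInf_le ⟨∅, fun s hs t _ h => (h s hs (inD_left s t)).elim, rfl⟩)

theorem val_step {P T : Finset (ℝ × ℝ)} {m : ℝ × ℝ} (hm : m ∈ P) :
    val P T ≤ val P (insert m T) + (cost P T m).card := by
  obtain ⟨E, hE, hE'⟩ := exists_val P (insert m T)
  refine (Nat.sInf_le (s := {k | ∃ E, Good P T E ∧ E.card = k})
    ⟨_, good_step hm hE, rfl⟩).trans ((card_union_le _ _).trans ?_)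
  rw [hE']
  exact Nat.add_le_add_left card_image_le _

theorem sum_insert_eq {α : Type} [DecidableEq α] (P : Finset α) (r : ℕ) (h : Finset α → α → ℕ) :
    ∑ T ∈ powersetCard r P, ∑ m ∈ P \ T, h (insert m T) m =
      ∑ U ∈ powersetCard (r + 1) P, ∑ m ∈ U, h U m := by
  rw [sum_sigma', sum_sigma']
  refine sum_nbij' (fun x => ⟨insert x.2 x.1, x.2⟩) (fun x => ⟨x.1.erase x.2, x.2⟩) ?_ ?_ ?_ ?_ ?_
  · rintro ⟨T, m⟩ hx
    simp only [mem_sigma, mem_powersetCard, mem_sdiff] at hx ⊢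
    exact ⟨⟨insert_subset hx.2.1 hx.1.1, by rw [card_insert_of_notMem hx.2.2, hx.1.2]⟩,
      mem_insert_self _ _⟩
  · rintro ⟨U, m⟩ hx
    simp only [mem_sigma, mem_powersetCard, mem_sdiff] at hx ⊢
    exact ⟨⟨(erase_subset _ _).trans hx.1.1, by rw [card_erase_of_mem hx.2, hx.1.2]; rfl⟩,
      hx.1.1 hx.2, notMem_erase _ _⟩
  · rintro ⟨T, m⟩ hx
    simp only [mem_sigma, mem_powersetCard, mem_sdiff] at hx
    simp [erase_insert hx.2.2]
  · rintro ⟨U, m⟩ hx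
    simp only [mem_sigma] at hx
    simp [insert_erase hx.2]
  · intro x _
    rfl

theorem sum_cost_le (P : Finset (ℝ × ℝ)) (r : ℕ) :
    ∑ T ∈ powersetCard r P, ∑ m ∈ P \ T, (cost P T m).card ≤
      6 * (r + 2) * P.card.choose (r + 2) := by
  classical
  have h1 := sum_insert_eq P r
    (fun U m => ((P \ U).filter (fun s => Del (insert s U) s m)).card)
  have h2 := sum_insert_eq P (r + 1)
    (fun U s => ((U.erase s).filter (fun m => Del U s m)).card)
  have h3 : ∑ U ∈ powersetCard (r + 1) P, ∑ m ∈ U,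
      ((P \ U).filter (fun s => Del (insert s U) s m)).card =
      ∑ U ∈ powersetCard (r + 1) P, ∑ s ∈ P \ U,
        (((insert s U).erase s).filter (fun m => Del (insert s U) s m)).card := by
    refine sum_congr rfl fun U _ => ?_
    simp only [card_filter]
    rw [sum_comm]
    refine sum_congr rfl fun s hs => ?_
    rw [erase_insert (mem_sdiff.1 hs).2]
  have h4 : ∀ U ∈ powersetCard (r + 1 + 1) P,
      ∑ s ∈ U, ((U.erase s).filter (fun m => Del U s m)).card ≤ 6 * (r + 2) := by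
    intro U hU
    have h5 := del_card U
    rw [(mem_powersetCard.1 hU).2] at h5
    refine le_trans (le_of_eq ?_) h5
    rw [card_filter, sum_product]
    refine sum_congr rfl fun s _ => ?_
    rw [← card_filter]
    congr 1
    ext m
    simp only [mem_filter, mem_erase, ne_eq]
    tauto
  calc _ = _ := h1
    _ = _ := h3
    _ = _ := h2
    _ ≤ ∑ U ∈ powersetCard (r + 1 + 1) P, 6 * (r + 2) := sum_le_sum h4
    _ = _ := by rw [sum_const, card_powersetCard, smul_eq_mul, mul_comm]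

theorem sum_val_step (P : Finset (ℝ × ℝ)) (r : ℕ) :
    (P.card - r) * ∑ T ∈ powersetCard r P, val P T ≤
      (r + 1) * ∑ U ∈ powersetCard (r + 1) P, val P U + 6 * (r + 2) * P.card.choose (r + 2) := by
  have h1 := sum_insert_eq P r (fun U _ => val P U)
  have h2 : ∑ U ∈ powersetCard (r + 1) P, ∑ m ∈ U, val P U =
      (r + 1) * ∑ U ∈ powersetCard (r + 1) P, val P U := by
    rw [mul_sum]
    exact sum_congr rfl fun U hU => by rw [sum_const, (mem_powersetCard.1 hU).2, smul_eq_mul]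
  refine le_trans ?_ (Nat.add_le_add (h1.trans h2).le (sum_cost_le P r))
  rw [← sum_add_distrib, mul_sum]
  refine sum_le_sum fun T hT => ?_
  rw [← sum_add_distrib, ← (mem_powersetCard.1 hT).2,
    ← card_sdiff_of_subset (mem_powersetCard.1 hT).1, ← smul_eq_mul, ← sum_const]
  exact sum_le_sum fun m hm => val_step (mem_sdiff.1 hm).1

theorem sum_val_le (P : Finset (ℝ × ℝ)) (j r : ℕ) (h : r + j = P.card) :
    ((∑ T ∈ powersetCard r P, val P T : ℕ) : ℝ) ≤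
      P.card.choose r * (6 * ∑ i ∈ Ico r P.card, ((P.card : ℝ) / (i + 1) - 1)) := by
  induction j generalizing r with
  | zero =>
    obtain rfl : r = P.card := by omega
    simp [val_self]
  | succ j ih =>
    have ih := ih (r + 1) (by omega)
    have h1 := sum_val_step P r
    have hn : P.card - r = j + 1 := by omega
    have h2 := Nat.choose_succ_right_eq P.card r
    have h3 := Nat.choose_succ_right_eq P.card (r + 1)
    have hn' : P.card - (r + 1) = j := by omega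
    rw [hn] at h1 h2
    rw [hn'] at h3
    rw [sum_eq_sum_Ico_succ_bot (by omega : r < P.card)]
    set S := ∑ i ∈ Ico (r + 1) P.card, ((P.card : ℝ) / (i + 1) - 1)
    set A := ∑ T ∈ powersetCard r P, val P T
    set A' := ∑ T ∈ powersetCard (r + 1) P, val P T
    have e1 : ((j : ℝ) + 1) * A ≤ (r + 1) * A' + 6 * (r + 2) * P.card.choose (r + 2) := by
      exact_mod_cast h1
    have e2 : (P.card.choose (r + 1) : ℝ) * (r + 1) = P.card.choose r * (j + 1) := by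
      exact_mod_cast h2
    have e3 : (P.card.choose (r + 2) : ℝ) * (r + 2) = P.card.choose (r + 1) * j := by
      exact_mod_cast h3
    have e4 : (P.card : ℝ) / (r + 1) - 1 = j / (r + 1) := by
      rw [← h]
      push_cast
      field_simp
      ring
    rw [e4]
    have hj : (0 : ℝ) < j + 1 := by positivity
    have hr : (0 : ℝ) < r + 1 := by positivity
    have e5 : (P.card.choose (r + 1) : ℝ) * j = P.card.choose r * (j + 1) * (j / (r + 1)) := by
      rw [← e2]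
      field_simp
    refine le_of_mul_le_mul_left ?_ hj
    calc ((j : ℝ) + 1) * A ≤ (r + 1) * A' + 6 * (P.card.choose (r + 2) * (r + 2)) := by linarith
      _ ≤ (r + 1) * (P.card.choose (r + 1) * (6 * S)) + 6 * (P.card.choose (r + 1) * j) := by
        rw [e3]
        gcongr
      _ = (P.card.choose (r + 1) * (r + 1)) * (6 * S) + 6 * (P.card.choose (r + 1) * j) := by ring
      _ = _ := by rw [e2, e5]; ring

theorem val_empty_le (P : Finset (ℝ × ℝ)) : (val P ∅ : ℝ) ≤ 6 * P.card * Real.log P.card := by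
  have h := sum_val_le P P.card 0 (by simp)
  simp only [powersetCard_zero, sum_singleton, Nat.choose_zero_right, Nat.cast_one, one_mul,
    sum_sub_distrib, sum_const, Nat.card_Ico, nsmul_eq_mul, mul_one, tsub_zero] at h
  have h1 := harmonic_le_one_add_log P.card
  have h2 : ∑ i ∈ Ico 0 P.card, (P.card : ℝ) / (i + 1) = P.card * (harmonic P.card : ℝ) := by
    rw [harmonic, ← range_eq_Ico]
    push_cast
    rw [mul_sum]
    exact sum_congr rfl fun i _ => div_eq_mul_inv _ _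
  rw [h2] at h
  nlinarith [mul_le_mul_of_nonneg_left h1 (Nat.cast_nonneg (α := ℝ) P.card)]

theorem exists_wedge_aux (a b : ℝ × ℝ) (h1 : 0 ≤ a.1 * b.1 + a.2 * b.2)
    (h2 : 0 ≤ a.1 * b.2 - a.2 * b.1) (ha : a ≠ 0) :
    ∃ φ₀, a ∈ wedge φ₀ (Real.pi / 2) ∧ b ∈ wedge φ₀ (Real.pi / 2) := by
  let z : ℂ := ⟨a.1, a.2⟩
  have hz : z ≠ 0 := fun h => ha (Prod.ext (congrArg Complex.re h) (congrArg Complex.im h))
  have hr : 0 < ‖z‖ := norm_pos_iff.2 hz
  have ha1 : ‖z‖ * Real.cos z.arg = a.1 := Complex.norm_mul_cos_arg z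
  have ha2 : ‖z‖ * Real.sin z.arg = a.2 := Complex.norm_mul_sin_arg z
  let q : ℂ := ⟨b.1 * Real.cos z.arg + b.2 * Real.sin z.arg,
    b.2 * Real.cos z.arg - b.1 * Real.sin z.arg⟩
  have hq1 : 0 ≤ q.re := by
    refine nonneg_of_mul_nonneg_right (a := ‖z‖) ?_ hr
    simp only [q]
    rw [← ha1, ← ha2] at h1
    linarith
  have hq2 : 0 ≤ q.im := by
    refine nonneg_of_mul_nonneg_right (a := ‖z‖) ?_ hr
    simp only [q]
    rw [← ha1, ← ha2] at h2
    linarith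
  have hb1 : ‖q‖ * Real.cos q.arg = b.1 * Real.cos z.arg + b.2 * Real.sin z.arg :=
    Complex.norm_mul_cos_arg q
  have hb2 : ‖q‖ * Real.sin q.arg = b.2 * Real.cos z.arg - b.1 * Real.sin z.arg :=
    Complex.norm_mul_sin_arg q
  have hcs := Real.cos_sq_add_sin_sq z.arg
  refine ⟨z.arg, ⟨‖z‖, z.arg, hr.le, le_rfl, by linarith [Real.pi_pos], Prod.ext ha1.symm ha2.symm⟩,
    ‖q‖, z.arg + q.arg, norm_nonneg _, by linarith [Complex.arg_nonneg_iff.2 hq2],
    by linarith [Complex.arg_le_pi_div_two_iff.2 (Or.inl hq1)], Prod.ext ?_ ?_⟩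
  · simp only [Real.cos_add]
    linear_combination (-Real.cos z.arg) * hb1 + Real.sin z.arg * hb2 - b.1 * hcs
  · simp only [Real.sin_add]
    linear_combination (-Real.sin z.arg) * hb1 - Real.cos z.arg * hb2 - b.2 * hcs

theorem exists_wedge (a b : ℝ × ℝ) (h : 0 ≤ a.1 * b.1 + a.2 * b.2) (ha : a ≠ 0) (hb : b ≠ 0) :
    ∃ φ₀, a ∈ wedge φ₀ (Real.pi / 2) ∧ b ∈ wedge φ₀ (Real.pi / 2) := by
  rcases le_total 0 (a.1 * b.2 - a.2 * b.1) with h2 | h2
  · exact exists_wedge_aux a b h h2 ha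
  · obtain ⟨φ, h3, h4⟩ := exists_wedge_aux b a (by linarith) (by linarith) hb
    exact ⟨φ, h4, h3⟩

theorem exists_graph (P : Finset (ℝ × ℝ)) : ∃ G : SimpleGraph P,
    AngleMonotone (Real.pi / 2) P G ∧ G.edgeSet.ncard ≤ val P ∅ := by
  classical
  obtain ⟨E, hE, hE'⟩ := exists_val P ∅
  let G : SimpleGraph P := SimpleGraph.fromRel (fun u v => ((u : ℝ × ℝ), (v : ℝ × ℝ)) ∈ E)
  refine ⟨G, fun s t => ?_, ?_⟩
  · by_cases hst : s = t
    · subst hst
      exact ⟨.nil, by simp, 0, by simp⟩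
    have single : G.Adj s t → ∃ p : G.Walk s t, p.IsPath ∧ ∃ φ₀ : ℝ, ∀ d ∈ p.darts,
        (d.snd : ℝ × ℝ) - (d.fst : ℝ × ℝ) ∈ wedge φ₀ (Real.pi / 2) := by
      intro h
      have hne : (t : ℝ × ℝ) - s ≠ 0 := sub_ne_zero.2 fun h => hst (Subtype.ext h.symm)
      obtain ⟨φ, h1, -⟩ := exists_wedge _ _
        (add_nonneg (mul_self_nonneg _) (mul_self_nonneg _)) hne hne
      exact ⟨.cons h .nil, by simp [hst], φ, by simpa using h1⟩
    obtain ⟨m, hm, hD, h1, h2⟩ := hE s s.2 t t.2 (by simp)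
    by_cases hsm : (s : ℝ × ℝ) = m
    · subst hsm
      refine single ((SimpleGraph.fromRel_adj _ _ _).2 ⟨hst, Or.inr ?_⟩)
      exact h2.resolve_left fun h => hst (Subtype.ext h.symm)
    by_cases htm : (t : ℝ × ℝ) = m
    · subst htm
      exact single ((SimpleGraph.fromRel_adj _ _ _).2 ⟨hst, Or.inl (h1.resolve_left hsm)⟩)
    have hsm' : s ≠ ⟨m, hm⟩ := fun h => hsm (congrArg Subtype.val h)
    have htm' : (⟨m, hm⟩ : P) ≠ t := fun h => htm (congrArg Subtype.val h).symm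
    have a1 : G.Adj s ⟨m, hm⟩ :=
      (SimpleGraph.fromRel_adj _ _ _).2 ⟨hsm', Or.inl (h1.resolve_left hsm)⟩
    have a2 : G.Adj ⟨m, hm⟩ t :=
      (SimpleGraph.fromRel_adj _ _ _).2 ⟨htm', Or.inr (h2.resolve_left htm)⟩
    obtain ⟨φ, h3, h4⟩ := exists_wedge (m - s) (t - m) hD (sub_ne_zero.2 (Ne.symm hsm))
      (sub_ne_zero.2 htm)
    exact ⟨.cons a1 (.cons a2 .nil), by simp [hst, hsm', htm'], φ, by simpa using ⟨h3, h4⟩⟩
  · rw [← hE', ← Set.ncard_coe_finset]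
    have hsub : Sym2.map Subtype.val '' G.edgeSet ⊆
        (fun e : (ℝ × ℝ) × (ℝ × ℝ) => s(e.1, e.2)) '' (E : Set ((ℝ × ℝ) × (ℝ × ℝ))) := by
      rintro _ ⟨e, he, rfl⟩
      induction e using Sym2.ind with
      | h u v =>
        have he' : G.Adj u v := he
        rcases ((SimpleGraph.fromRel_adj _ _ _).1 he').2 with h | h
        · exact ⟨_, h, rfl⟩
        · exact ⟨_, h, by simp⟩
    rw [← Set.ncard_image_of_injective _ (Sym2.map.injective Subtype.val_injective)]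
    exact (Set.ncard_le_ncard hsub (E.finite_toSet.image _)).trans
      (Set.ncard_image_le E.finite_toSet)

theorem exists_sparse (P : Finset (ℝ × ℝ)) : ∃ G : SimpleGraph P,
    AngleMonotone (Real.pi / 2) P G ∧ (G.edgeSet.ncard : ℝ) ≤ 6 * P.card * Real.log P.card := by
  obtain ⟨G, hG, hG'⟩ := exists_graph P
  exact ⟨G, hG, (Nat.cast_le.2 hG').trans (val_empty_le P)⟩

end Pool.Agent.Lib.MP_9a669f_co
end
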