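import Mathlib
import Pool.Agent.Lib.MP_9a669f_co.CvMain

namespace Pool.Agent.Retired.MP_9a669f_co.ConvexLinear

open Pool.Agent.Lib.MP_9a669f_co

/-- Every finite planar point set in convex position has an angle-monotone graph of width
90 degrees with at most `112 n` edges. -/
theorem result (P : Finset (ℝ × ℝ)) (h : ConvexIndependent ℝ (fun p : P => (p : ℝ × ℝ))) :
    ∃ G : SimpleGraph P, AngleMonotone (Real.pi / 2) P G ∧ G.edgeSet.ncard ≤ 112 * P.card :=
  Cv.convex_linear P h

end Pool.Agent.Retired.MP_9a669f_co.ConvexLinear
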