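import Mathlib
import Pool.Agent.Lib.MP_9a669f_co.Main

namespace Pool.Agent.Retired.MP_9a669f_co.NLogN

open Pool.Agent.Lib.MP_9a669f_co

/-- Every finite planar point set has an angle-monotone graph of width 90 degrees with at most
`6 n log n` edges. -/
theorem result (P : Finset (ℝ × ℝ)) : ∃ G : SimpleGraph P,
    AngleMonotone (Real.pi / 2) P G ∧ (G.edgeSet.ncard : ℝ) ≤ 6 * P.card * Real.log P.card :=
  exists_sparse P

end Pool.Agent.Retired.MP_9a669f_co.NLogN
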